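import Pool.Agent.N879.PU.Stm
import Pool.Agent.TH321.GF.AQ

set_option autoImplicit false

/-!
Project PU (helper879), part EM: zeta by its partial sum on the critical line (helper543).
-/

namespace Pool.Agent.N879.PU

theorem t_EM : S_EM := by
  refine ⟨10, by norm_num, fun T u X hT h1 h2 h3 h4 => ?_⟩
  have hT0 : 0 < T := by linarith
  have hX0 : (0 : ℝ) < X := by linarith
  have hX : 1 ≤ X := by
    have : 0 < X := by exact_mod_cast hX0
    omega
  refine (Pool.Agent.TH321.GF.AQ_pw u X hX (by linarith) (by linarith)).trans ?_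
  set p := Real.sqrt T with hp
  have hp0 : 0 < p := Real.sqrt_pos.2 hT0
  have hp2 : p ^ 2 = T := Real.sq_sqrt hT0.le
  have hTp : T ^ (-(1 / 2) : ℝ) = 1 / p := by
    rw [Real.rpow_neg hT0.le, ← Real.sqrt_eq_rpow, one_div]
  have hXp : Real.sqrt X ≤ 2.83 * p := by
    apply Real.sqrt_le_iff.2
    refine ⟨by positivity, h4.trans ?_⟩
    rw [mul_pow, hp2]
    linarith
  have hpX : 2 * p ≤ Real.sqrt X := by
    apply Real.le_sqrt_of_sq_le
    rw [mul_pow, hp2]
    linarith
  have hq0 : 0 < Real.sqrt X := lt_of_lt_of_le (by positivity) hpX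
  have a1 : 3 * Real.sqrt X / (1 + u) ≤ 8.49 / p := by
    rw [div_le_div_iff₀ (by linarith) hp0]
    nlinarith [mul_le_mul_of_nonneg_right hXp hp0.le]
  have a2 : 3 / (2 * Real.sqrt X) ≤ 0.75 / p := by
    rw [div_le_div_iff₀ (by positivity) hp0]
    nlinarith
  rw [hTp]
  have a3 : (8.49 : ℝ) / p + 0.75 / p ≤ 10 * (1 / p) := by
    rw [← add_div, mul_one_div]
    gcongr
    norm_num
  linarith

end Pool.Agent.N879.PU
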