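import Pool.Agent.N879.PU.Stm

set_option autoImplicit false

/-!
Project PU (helper879), task IRU (helper774): mean values over the shifts.
-/

namespace Pool.Agent.N879.PU

open Complex Filter Topology MeasureTheory Set
open Pool.Agent.TH612.GS (mP)

namespace Iruaux

variable {ι : Type} [Fintype ι]

theorem cont_prod (g : ι → ℝ → ℂ) (hg : ∀ j, Continuous (g j)) :
    Continuous fun z : (ι → ℝ) × ℝ => ∏ j, g j (z.2 + z.1 j) := by
  refine continuous_finsetProd _ fun j _ => (hg j).comp ?_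
  exact continuous_snd.add ((continuous_apply j).comp continuous_fst)

theorem bd (g : ι → ℝ → ℂ) (hg : ∀ j, Continuous (g j)) (K : Set (ι → ℝ)) (hK : IsCompact K)
    (a b : ℝ) : ∃ B : ℝ, ∀ c ∈ K, ∀ t ∈ Icc a b, ‖∏ j, g j (t + c j)‖ ≤ B := by
  obtain ⟨B, hB⟩ := (hK.prod (isCompact_Icc (a := a) (b := b))).exists_bound_of_continuousOn
    (cont_prod g hg).continuousOn
  exact ⟨B, fun c hc t ht => hB (c, t) ⟨hc, ht⟩⟩

theorem D_fin {a b : ℝ} {D : Set ℝ} (hD : D ⊆ Icc a b) : IsFiniteMeasure (volume.restrict D) := by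
  refine ⟨?_⟩
  rw [Measure.restrict_apply_univ]
  exact (measure_mono hD).trans_lt (by rw [Real.volume_Icc]; exact ENNReal.ofReal_lt_top)

theorem cont_int (a b : ℝ) (D : Set ℝ) (g : ι → ℝ → ℂ) (hDm : MeasurableSet D) (hD : D ⊆ Icc a b)
    (hg : ∀ j, Continuous (g j)) : Continuous fun γ : ι → ℝ => ∫ t in D, ∏ i, g i (t + γ i) := by
  have := D_fin hD
  rw [continuous_iff_continuousAt]
  intro c0
  obtain ⟨B, hB⟩ := bd g hg (Metric.closedBall c0 1) (isCompact_closedBall c0 1) a b
  refine continuousAt_of_dominated (bound := fun _ => B) ?_ ?_ (integrable_const _) ?_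
  · refine Eventually.of_forall fun c => ?_
    exact ((cont_prod g hg).comp (continuous_const.prodMk continuous_id)).aestronglyMeasurable
  · filter_upwards [Metric.closedBall_mem_nhds c0 one_pos] with c hc
    rw [ae_restrict_iff' hDm]
    exact Eventually.of_forall fun t ht => hB c hc t (hD ht)
  · refine Eventually.of_forall fun t => ?_
    exact ((cont_prod g hg).comp (continuous_id.prodMk continuous_const)).continuousAt

/-- Cauchy-Schwarz for one factor -/
theorem one (U W : ℝ) (hU : 0 < U) (hW : 0 ≤ W) (f : ℝ → ℂ) (hf : Continuous f)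
    (h : ∫ c in (0 : ℝ)..U, ‖f c‖ ^ 2 ≤ U * W) :
    ∫ c in Icc (0 : ℝ) U, ‖f c‖ ≤ U * √W := by
  rw [integral_Icc_eq_integral_Ioc, ← intervalIntegral.integral_of_le hU.le]
  have hi1 : IntervalIntegrable (fun c => ‖f c‖) volume 0 U := hf.norm.intervalIntegrable _ _
  have hi2 : IntervalIntegrable (fun c => ‖f c‖ ^ 2) volume 0 U := (hf.norm.pow 2).intervalIntegrable _ _
  rcases hW.eq_or_lt with hW0 | hW0
  · -- W = 0: the function vanishes
    subst hW0
    rw [Real.sqrt_zero, mul_zero]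
    -- for every ε
    refine le_of_forall_pos_le_add fun ε hε => ?_
    have h1 : ∫ c in (0 : ℝ)..U, ‖f c‖ ≤ ∫ c in (0 : ℝ)..U, (ε / U + (U / ε) * ‖f c‖ ^ 2) := by
      refine intervalIntegral.integral_mono_on hU.le hi1 ?_ ?_
      · exact intervalIntegrable_const.add (hi2.const_mul _)
      · intro c _
        have h2 : 0 < ε / U := by positivity
        have h3 : (U / ε) = (ε / U)⁻¹ := by rw [inv_div]
        rw [h3]
        set e := ε / U
        have h4 : 0 ≤ ‖f c‖ := norm_nonneg _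
        have h5 : e * e⁻¹ = 1 := mul_inv_cancel₀ h2.ne'
        have h6 : 0 < e⁻¹ := inv_pos.2 h2
        have h7 : 0 ≤ e⁻¹ * ((‖f c‖ - e) ^ 2 + e * ‖f c‖) := by positivity
        have h8 : e⁻¹ * ((‖f c‖ - e) ^ 2 + e * ‖f c‖) = e⁻¹ * ‖f c‖ ^ 2 - (e * e⁻¹) * ‖f c‖ + (e * e⁻¹) * e := by
          ring
        rw [h8, h5] at h7
        linarith
    rw [intervalIntegral.integral_add intervalIntegrable_const (hi2.const_mul _),
      intervalIntegral.integral_const, intervalIntegral.integral_const_mul] at h1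
    have h2 : (U - 0) • (ε / U) = ε := by
      rw [sub_zero, smul_eq_mul]; field_simp
    rw [h2] at h1
    have h3 : (U / ε) * ∫ c in (0 : ℝ)..U, ‖f c‖ ^ 2 ≤ 0 := by
      rw [mul_zero] at h
      exact mul_nonpos_of_nonneg_of_nonpos (by positivity) h
    linarith
  · have hs : 0 < √W := Real.sqrt_pos.2 hW0
    have h1 : ∫ c in (0 : ℝ)..U, ‖f c‖ ≤ ∫ c in (0 : ℝ)..U, (√W / 2 + (1 / (2 * √W)) * ‖f c‖ ^ 2) := by
      refine intervalIntegral.integral_mono_on hU.le hi1 ?_ ?_
      · exact intervalIntegrable_const.add (hi2.const_mul _)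
      · intro c _
        have h4 : √W / 2 + (1 / (2 * √W)) * ‖f c‖ ^ 2 - ‖f c‖ = (1 / (2 * √W)) * (‖f c‖ - √W) ^ 2 := by
          field_simp
          ring
        have h5 : 0 ≤ (1 / (2 * √W)) * (‖f c‖ - √W) ^ 2 := by positivity
        linarith
    rw [intervalIntegral.integral_add intervalIntegrable_const (hi2.const_mul _),
      intervalIntegral.integral_const, intervalIntegral.integral_const_mul] at h1
    refine h1.trans ?_
    have h3 : (1 / (2 * √W)) * ∫ c in (0 : ℝ)..U, ‖f c‖ ^ 2 ≤ (1 / (2 * √W)) * (U * W) :=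
      mul_le_mul_of_nonneg_left h (by positivity)
    have h4 : (1 / (2 * √W)) * (U * W) = U * √W / 2 := by
      have : W = √W * √W := (Real.mul_self_sqrt hW).symm
      field_simp
      rw [Real.sq_sqrt hW]
    rw [sub_zero, smul_eq_mul]
    linarith

end Iruaux

/-- IRU -/
theorem t_IRU : S_IRU := by
  intro ι _ a b U W D g hab hU hW hDm hD hg hloc
  refine ⟨Iruaux.cont_int a b D g hDm hD hg, ?_⟩
  have := Iruaux.D_fin hD
  have hfin : IsFiniteMeasure ((volume : Measure ℝ).restrict (Icc (0 : ℝ) U)) := by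
    refine ⟨?_⟩
    rw [Measure.restrict_apply_univ, Real.volume_Icc]
    exact ENNReal.ofReal_lt_top
  have hsf : SFinite (mP ι U) := by
    unfold Pool.Agent.TH612.GS.mP
    infer_instance
  have hcont := Iruaux.cont_prod g hg
  have h1 : ∫⁻ γ, ENNReal.ofReal ‖∫ t in D, ∏ i, g i (t + γ i)‖ ∂(mP ι U) ≤
      ∫⁻ γ, (∫⁻ t in D, ENNReal.ofReal ‖∏ i, g i (t + γ i)‖) ∂(mP ι U) := by
    refine lintegral_mono fun γ => ?_
    simp only [ofReal_norm]
    exact enorm_integral_le_lintegral_enorm _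
  refine h1.trans ?_
  rw [lintegral_lintegral_swap (by
    exact (hcont.norm.measurable.ennreal_ofReal).aemeasurable)]
  have h2 : ∀ t ∈ D, ∫⁻ γ, ENNReal.ofReal ‖∏ i, g i (t + γ i)‖ ∂(mP ι U) ≤
      ENNReal.ofReal ((U * √W) ^ Fintype.card ι) := by
    intro t ht
    have h3 : ∀ i, Continuous fun c => g i (t + c) := fun i =>
      (hg i).comp (continuous_const.add continuous_id)
    have hi : ∀ i, Integrable (fun c => ‖g i (t + c)‖) (volume.restrict (Icc (0 : ℝ) U)) := fun i =>
      (h3 i).norm.continuousOn.integrableOn_compact isCompact_Icc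
    have h4 : ∫⁻ γ, ENNReal.ofReal ‖∏ i, g i (t + γ i)‖ ∂(mP ι U) =
        ENNReal.ofReal (∏ i, ∫ c in Icc (0 : ℝ) U, ‖g i (t + c)‖) := by
      unfold Pool.Agent.TH612.GS.mP
      rw [← integral_fintype_prod_eq_prod (𝕜 := ℝ) (fun i c => ‖g i (t + c)‖)]
      rw [ofReal_integral_eq_lintegral_ofReal]
      · refine lintegral_congr fun γ => ?_
        rw [norm_prod]
      · exact Integrable.fintype_prod (f := fun i c => ‖g i (t + c)‖) hi
      · exact Eventually.of_forall fun γ => Finset.prod_nonneg fun i _ => norm_nonneg _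
    rw [h4, ← Finset.card_univ, ← Finset.prod_const]
    refine ENNReal.ofReal_le_ofReal (Finset.prod_le_prod (fun i _ => ?_) fun i _ => ?_)
    · exact integral_nonneg fun c => norm_nonneg _
    · exact Iruaux.one U W hU hW _ (h3 i) (hloc i t ht)
  have h5 : ∫⁻ t in D, (∫⁻ γ, ENNReal.ofReal ‖∏ i, g i (t + γ i)‖ ∂(mP ι U)) ≤
      ∫⁻ _ in D, ENNReal.ofReal ((U * √W) ^ Fintype.card ι) := by
    refine setLIntegral_mono' hDm fun t ht => h2 t ht
  refine h5.trans ?_
  rw [lintegral_const, Measure.restrict_apply_univ, ENNReal.ofReal_mul ENNReal.toReal_nonneg,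
    ENNReal.ofReal_toReal, mul_comm]
  exact ((measure_mono hD).trans_lt (by rw [Real.volume_Icc]; exact ENNReal.ofReal_lt_top)).ne

end Pool.Agent.N879.PU
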