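import Pool.Agent.N879.PU.Stm

set_option autoImplicit false

/-! PU: zeta minus a short Dirichlet polynomial, as an operator (helper2). -/

namespace Pool.Agent.N879.PU

open Complex Filter Topology MeasureTheory Set
open Pool.Agent.TH612.GS (z zN PN mP SN SP GM zr Sep)
open Pool.Agent.N879.PZ (Wb)

noncomputable section

namespace Kuaux

/-- Cauchy-Schwarz -/
lemma cs_int {a b : ℝ} (hab : a ≤ b) {F G : ℝ → ℂ}
    (h2 : IntervalIntegrable (fun t => ‖F t‖ ^ 2) volume a b)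
    (h3 : IntervalIntegrable (fun t => ‖G t‖ ^ 2) volume a b)
    (h4 : IntervalIntegrable (fun t => ‖F t‖ * ‖G t‖) volume a b) :
    ‖∫ t in a..b, F t * G t‖ ^ 2 ≤ (∫ t in a..b, ‖F t‖ ^ 2) * ∫ t in a..b, ‖G t‖ ^ 2 := by
  have h5 : ‖∫ t in a..b, F t * G t‖ ≤ ∫ t in a..b, ‖F t‖ * ‖G t‖ := by
    refine (intervalIntegral.norm_integral_le_integral_norm hab).trans (le_of_eq ?_)
    simp only [norm_mul]
  have h6 : ∀ s : ℝ, 0 ≤ (∫ t in a..b, ‖F t‖ ^ 2) * (s * s) +
      (-2 * ∫ t in a..b, ‖F t‖ * ‖G t‖) * s + ∫ t in a..b, ‖G t‖ ^ 2 := by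
    intro s
    have e1 : (∫ t in a..b, ‖F t‖ ^ 2) * (s * s) +
        (-2 * ∫ t in a..b, ‖F t‖ * ‖G t‖) * s + ∫ t in a..b, ‖G t‖ ^ 2 =
        ∫ t in a..b, ((s * s) * ‖F t‖ ^ 2 + (-2 * s) * (‖F t‖ * ‖G t‖) + ‖G t‖ ^ 2) := by
      rw [intervalIntegral.integral_add ((h2.const_mul _).add (h4.const_mul _)) h3,
        intervalIntegral.integral_add (h2.const_mul _) (h4.const_mul _),
        intervalIntegral.integral_const_mul, intervalIntegral.integral_const_mul]
      ring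
    rw [e1]
    refine intervalIntegral.integral_nonneg hab fun t _ => ?_
    have : (s * s) * ‖F t‖ ^ 2 + (-2 * s) * (‖F t‖ * ‖G t‖) + ‖G t‖ ^ 2 =
        (s * ‖F t‖ - ‖G t‖) ^ 2 := by ring
    rw [this]
    positivity
  have h7 := discrim_le_zero h6
  unfold discrim at h7
  have h8 : (∫ t in a..b, ‖F t‖ * ‖G t‖) ^ 2 ≤
      (∫ t in a..b, ‖F t‖ ^ 2) * ∫ t in a..b, ‖G t‖ ^ 2 := by nlinarith
  refine le_trans ?_ h8
  exact pow_le_pow_left₀ (norm_nonneg _) h5 2

/-- products of weights and continuous functions are integrable -/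
lemma int_mul {a b : ℝ} (hab : a ≤ b) {F : ℝ → ℂ} (hF : Wb a b F) {G : ℝ → ℂ}
    (hG : Continuous G) : IntervalIntegrable (fun t => F t * G t) volume a b := by
  obtain ⟨hFm, M, hM⟩ := hF
  rw [intervalIntegrable_iff_integrableOn_Icc_of_le hab]
  have h1 : IntegrableOn G (Icc a b) := hG.continuousOn.integrableOn_Icc
  refine Integrable.bdd_mul (c := M) h1 hFm.aestronglyMeasurable ?_
  rw [ae_restrict_iff' measurableSet_Icc]
  exact Eventually.of_forall hM

lemma int_sq {a b : ℝ} (hab : a ≤ b) {F : ℝ → ℂ} (hF : Wb a b F) :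
    IntervalIntegrable (fun t => ‖F t‖ ^ 2) volume a b := by
  obtain ⟨hFm, M, hM⟩ := hF
  rw [intervalIntegrable_iff_integrableOn_Icc_of_le hab]
  refine Measure.integrableOn_of_bounded (M := M ^ 2) (by simp) (by fun_prop) ?_
  rw [ae_restrict_iff' measurableSet_Icc]
  refine Eventually.of_forall fun x hx => ?_
  rw [norm_pow, norm_norm]
  exact pow_le_pow_left₀ (norm_nonneg _) (hM x hx) 2

/-- the number of blocks -/
lemma exists_blk {N h : ℕ} : ∀ r : ℕ, h ≤ N * 2 ^ r → N < h →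
    ∃ i < r, N * 2 ^ i < h ∧ h ≤ N * 2 ^ (i + 1) := by
  intro r
  induction r with
  | zero =>
    intro h1 h2
    simp at h1
    omega
  | succ r ih =>
    intro h1 h2
    by_cases h3 : h ≤ N * 2 ^ r
    · obtain ⟨i, hi, h4⟩ := ih h3 h2
      exact ⟨i, by omega, h4⟩
    · exact ⟨r, by omega, by omega, h1⟩

lemma norm_sum_sq {ι : Type*} (s : Finset ι) (g : ι → ℂ) :
    ‖∑ i ∈ s, g i‖ ^ 2 ≤ s.card * ∑ i ∈ s, ‖g i‖ ^ 2 := by
  refine (pow_le_pow_left₀ (norm_nonneg _) (norm_sum_le _ _) 2).trans ?_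
  exact sq_sum_le_card_mul_sum_sq

/-- the characters -/
def en (n : ℕ) (u : ℝ) : ℂ := (n : ℂ) ^ (-(I * u))

lemma en_cont {n : ℕ} (hn : 1 ≤ n) : Continuous (en n) := by
  have h0 : (n : ℂ) ≠ 0 := by exact_mod_cast (by omega : n ≠ 0)
  unfold en
  exact Continuous.const_cpow (by fun_prop) (Or.inl h0)

lemma en_add {n : ℕ} (hn : 1 ≤ n) (t c : ℝ) : en n (t + c) = en n t * en n c := by
  have h0 : (n : ℂ) ≠ 0 := by exact_mod_cast (by omega : n ≠ 0)
  unfold en
  rw [← Complex.cpow_add _ _ h0]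
  congr 1
  push_cast
  ring

lemma term_eq {n : ℕ} (hn : 1 ≤ n) (u : ℝ) :
    (n : ℂ) ^ (-(1 / 2 + I * (u : ℂ))) = (n : ℂ) ^ (-(1 / 2) : ℂ) * en n u := by
  have h0 : (n : ℂ) ≠ 0 := by exact_mod_cast (by omega : n ≠ 0)
  unfold en
  rw [← Complex.cpow_add _ _ h0]
  congr 1
  ring

lemma norm_w {n : ℕ} (hn : 1 ≤ n) : ‖(n : ℂ) ^ (-(1 / 2) : ℂ)‖ ^ 2 = (n : ℝ)⁻¹ := by
  have hn0 : (0 : ℝ) < n := by exact_mod_cast hn
  rw [Complex.norm_natCast_cpow_of_pos (by omega)]
  have e : (-(1 / 2) : ℂ).re = -(1 / 2) := by norm_num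
  rw [e, ← Real.rpow_natCast, ← Real.rpow_mul hn0.le, ← Real.rpow_neg_one]
  norm_num

lemma z_cont : Continuous z := by
  rw [continuous_iff_continuousAt]
  intro u
  have h : (1 / 2 + I * (u : ℂ)) ≠ 1 := by
    intro h
    have := congrArg Complex.re h
    norm_num at this
  unfold z
  exact ContinuousAt.comp (f := fun u : ℝ => (1 / 2 + I * u : ℂ))
    (differentiableAt_riemannZeta h).continuousAt (by fun_prop)

lemma PN_eq (N : ℕ) (u : ℝ) :
    PN N u = ∑ n ∈ Finset.Ioc 0 N, (n : ℂ) ^ (-(1 / 2) : ℂ) * en n u := by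
  have e : Finset.Icc 1 N = Finset.Ioc 0 N := by
    ext n
    rw [Finset.mem_Icc, Finset.mem_Ioc]
    omega
  unfold PN zN
  rw [e]
  refine Finset.sum_congr rfl fun n hn => ?_
  exact term_eq (by have := (Finset.mem_Ioc.1 hn).1; omega) u

lemma PN_cont (N : ℕ) : Continuous (PN N) := by
  have e : PN N = fun u => ∑ n ∈ Finset.Ioc 0 N, (n : ℂ) ^ (-(1 / 2) : ℂ) * en n u :=
    funext (PN_eq N)
  rw [e]
  refine continuous_finsetSum _ fun n hn => continuous_const.mul (en_cont ?_)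
  have := (Finset.mem_Ioc.1 hn).1
  omega

lemma PN_sub {N X : ℕ} (h : N ≤ X) (u : ℝ) :
    PN X u - PN N u = ∑ n ∈ Finset.Ioc N X, (n : ℂ) ^ (-(1 / 2) : ℂ) * en n u := by
  rw [PN_eq, PN_eq, ← Finset.sum_Ioc_consecutive _ (Nat.zero_le N) h]
  ring

/-- the number of blocks is at most a multiple of the logarithm -/
lemma log_blk {T : ℝ} (hT : 3 ≤ T) {X : ℕ} (hX1 : 1 ≤ X) (hX : (X : ℝ) ≤ 8 * T) :
    (Nat.log 2 X + 1 : ℝ) ≤ 7 * Real.log T := by
  have hT0 : 0 < T := by linarith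
  have hL : 1 ≤ Real.log T := by
    rw [Real.le_log_iff_exp_le hT0]
    have := Real.exp_one_lt_d9
    linarith
  have hX4 : (X : ℝ) ≤ T ^ 4 := by
    refine hX.trans ?_
    have h1 : 9 ≤ T ^ 2 := by nlinarith
    have h2 : 9 * T ≤ T ^ 2 * T ^ 2 := by nlinarith
    calc 8 * T ≤ 9 * T := by linarith
      _ ≤ T ^ 2 * T ^ 2 := h2
      _ = T ^ 4 := by ring
  have h1 : (2 : ℝ) ^ Nat.log 2 X ≤ X := by exact_mod_cast Nat.pow_log_le_self 2 (by omega)
  have h2 := Real.log_le_log (by positivity) (h1.trans hX4)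
  rw [Real.log_pow, Real.log_pow, Nat.cast_ofNat] at h2
  have h3 := Real.log_two_gt_d9
  have h4 : (0 : ℝ) ≤ Nat.log 2 X := Nat.cast_nonneg _
  have h5 : (Nat.log 2 X : ℝ) * 0.6931471803 ≤ 4 * Real.log T := by nlinarith
  nlinarith

/-- one block -/
lemma blk {C2 C3 : ℝ} (hC2 : 0 < C2) (hC3 : 0 < C3)
    (hms : ∀ (M : ℕ) (a b : ℝ) (c : ℕ → ℂ), 1 ≤ M → a ≤ b →
      ∫ u in a..b, ‖∑ n ∈ Finset.Icc M (2 * M), c n * (n : ℂ) ^ (-(I * u))‖ ^ 2 ≤
        C2 * ((b - a) + M) * ∑ n ∈ Finset.Icc M (2 * M), ‖c n‖ ^ 2)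
    (hmt : ∀ (M : ℕ) (a b : ℝ) (F : ℝ → ℂ), 1 ≤ M → a ≤ b → Wb a b F →
      ∑ n ∈ Finset.Icc M (2 * M), ‖∫ t in a..b, F t * (n : ℂ) ^ (-(I * t))‖ ^ 2 ≤
        C3 * ((b - a) + M) * ∫ t in a..b, ‖F t‖ ^ 2)
    {T H U : ℝ} {N K : ℕ} {F : ℝ → ℂ} (hT : 3 ≤ T) (hH1 : 1 ≤ H) (hHT : H ≤ T)
    (hU1 : 1 ≤ U) (hUT : U ≤ T) (hN1 : 1 ≤ N) (hF : Wb T (T + H) F) (hNK : N ≤ K)
    (hK : (K : ℝ) ≤ 8 * T) (S : Finset ℕ) (hS : ∀ n ∈ S, K < n ∧ n ≤ 2 * K) :
    ∫ c in (0 : ℝ)..U, ‖∑ n ∈ S, ((n : ℂ) ^ (-(1 / 2) : ℂ) *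
        ∫ t in T..(T + H), F t * en n t) * en n c‖ ^ 2 ≤
      C2 * C3 * (H * U / N + 10 * T) * ∫ t in T..(T + H), ‖F t‖ ^ 2 := by
  classical
  have hT0 : 0 < T := by linarith
  have hK1 : 1 ≤ K := hN1.trans hNK
  have hK0 : (0 : ℝ) < K := by exact_mod_cast hK1
  have hN0 : (0 : ℝ) < N := by exact_mod_cast hN1
  have hNK' : (N : ℝ) ≤ K := by exact_mod_cast hNK
  have hab : T ≤ T + H := by linarith
  have hP0 : 0 ≤ ∫ t in T..(T + H), ‖F t‖ ^ 2 :=
    intervalIntegral.integral_nonneg hab fun t _ => by positivity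
  set P := ∫ t in T..(T + H), ‖F t‖ ^ 2 with hPd
  set α : ℕ → ℂ := fun n => ∫ t in T..(T + H), F t * en n t with hα
  set cc : ℕ → ℂ := fun n => if n ∈ S then (n : ℂ) ^ (-(1 / 2) : ℂ) * α n else 0 with hcc
  have hSsub : S ⊆ Finset.Icc K (2 * K) := by
    intro n hn
    have := hS n hn
    rw [Finset.mem_Icc]
    omega
  have e1 : ∀ c : ℝ, ∑ n ∈ S, ((n : ℂ) ^ (-(1 / 2) : ℂ) * α n) * en n c =
      ∑ n ∈ Finset.Icc K (2 * K), cc n * (n : ℂ) ^ (-(I * c)) := by
    intro c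
    rw [← Finset.sum_subset hSsub (fun n _ hn => by
      show cc n * (n : ℂ) ^ (-(I * c)) = 0
      rw [hcc]
      simp only
      rw [if_neg hn, zero_mul])]
    refine Finset.sum_congr rfl fun n hn => ?_
    rw [hcc]
    simp only
    rw [if_pos hn]
    rfl
  have h1 := hms K 0 U cc hK1 (by linarith)
  have h2 := hmt K T (T + H) F hK1 hab hF
  have h3 : ∑ n ∈ Finset.Icc K (2 * K), ‖cc n‖ ^ 2 ≤
      (K : ℝ)⁻¹ * ∑ n ∈ Finset.Icc K (2 * K), ‖α n‖ ^ 2 := by
    rw [Finset.mul_sum]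
    refine Finset.sum_le_sum fun n hn => ?_
    have hn1 : K ≤ n := (Finset.mem_Icc.1 hn).1
    have hn0 : 1 ≤ n := hK1.trans hn1
    rw [hcc]
    simp only
    split_ifs
    · rw [norm_mul, mul_pow, norm_w hn0]
      refine mul_le_mul_of_nonneg_right ?_ (by positivity)
      exact inv_anti₀ hK0 (by exact_mod_cast hn1)
    · rw [norm_zero, zero_pow two_ne_zero]
      positivity
  have h4 : ∑ n ∈ Finset.Icc K (2 * K), ‖α n‖ ^ 2 ≤ C3 * (H + K) * P := by
    have e : T + H - T = H := by ring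
    rw [e] at h2
    exact h2
  rw [sub_zero] at h1
  have e2 : ∫ c in (0 : ℝ)..U, ‖∑ n ∈ S, ((n : ℂ) ^ (-(1 / 2) : ℂ) * α n) * en n c‖ ^ 2 =
      ∫ u in (0 : ℝ)..U, ‖∑ n ∈ Finset.Icc K (2 * K), cc n * (n : ℂ) ^ (-(I * u))‖ ^ 2 := by
    refine intervalIntegral.integral_congr fun c _ => ?_
    simp only [e1 c]
  rw [e2]
  have har : (U + K) * ((K : ℝ)⁻¹ * (H + K)) ≤ H * U / N + 10 * T := by
    have a1 : (U + K) * ((K : ℝ)⁻¹ * (H + K)) = H * U / K + U + H + K := by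
      field_simp
      ring
    have a2 : H * U / K ≤ H * U / N := div_le_div_of_nonneg_left (by positivity) hN0 hNK'
    rw [a1]
    linarith
  calc ∫ u in (0 : ℝ)..U, ‖∑ n ∈ Finset.Icc K (2 * K), cc n * (n : ℂ) ^ (-(I * u))‖ ^ 2
      ≤ C2 * (U + K) * ∑ n ∈ Finset.Icc K (2 * K), ‖cc n‖ ^ 2 := h1
    _ ≤ C2 * (U + K) * ((K : ℝ)⁻¹ * (C3 * (H + K) * P)) := by
        refine mul_le_mul_of_nonneg_left (h3.trans ?_) (by positivity)
        exact mul_le_mul_of_nonneg_left h4 (by positivity)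
    _ = C2 * C3 * ((U + K) * ((K : ℝ)⁻¹ * (H + K))) * P := by ring
    _ ≤ C2 * C3 * (H * U / N + 10 * T) * P := by gcongr

end Kuaux

open Kuaux in
theorem t_KU (h1 : S_EM) (h2 : S_MVS) (h3 : S_MVT) : S_KU := by
  classical
  obtain ⟨C1, hC1, hem⟩ := h1
  obtain ⟨C2, hC2, hms⟩ := h2
  obtain ⟨C3, hC3, hmt⟩ := h3
  refine ⟨980 * (C2 * C3) + 2 * C1 ^ 2, 2, by positivity, ?_⟩
  intro T H U N F hT hH1 hHT hU1 hUT hN1 hNT hF
  have hT0 : 0 < T := by linarith
  have hU0 : 0 ≤ U := by linarith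
  have hN0 : (0 : ℝ) < N := by exact_mod_cast hN1
  have hL : 1 ≤ Real.log T := by
    rw [Real.le_log_iff_exp_le hT0]
    have := Real.exp_one_lt_d9
    linarith
  set L := Real.log T with hLd
  set X := ⌈4 * T⌉₊ with hX
  have hX1 : 4 * T ≤ X := Nat.le_ceil _
  have hX2 : (X : ℝ) ≤ 8 * T := by
    have := Nat.ceil_lt_add_one (by positivity : 0 ≤ 4 * T)
    linarith
  have hXn : 1 ≤ X := by
    have h : (1 : ℝ) ≤ X := by linarith
    exact_mod_cast h
  have hNX : N ≤ X := by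
    have : (N : ℝ) ≤ X := by linarith
    exact_mod_cast this
  have hab : T ≤ T + H := by linarith
  have hP0 : 0 ≤ ∫ t in T..(T + H), ‖F t‖ ^ 2 :=
    intervalIntegral.integral_nonneg hab fun t _ => by positivity
  set P := ∫ t in T..(T + H), ‖F t‖ ^ 2 with hPd
  set S := Finset.Ioc N X with hS
  have hSn : ∀ n ∈ S, 1 ≤ n := fun n hn => by
    have := (Finset.mem_Ioc.1 hn).1
    omega
  set ζ : ℕ → ℂ := fun n => (n : ℂ) ^ (-(1 / 2) : ℂ) * ∫ t in T..(T + H), F t * en n t with hζ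
  set Er := H * (C1 ^ 2 / T) with hEr
  have hEr0 : 0 ≤ Er := by positivity
  -- the pointwise bound
  have hpt : ∀ c ∈ Icc 0 U, ‖∫ t in T..(T + H), F t * (z (t + c) - PN N (t + c))‖ ^ 2 ≤
      2 * ‖∑ n ∈ S, ζ n * en n c‖ ^ 2 + 2 * (P * Er) := by
    intro c hc
    set E : ℝ → ℂ := fun t => z (t + c) - PN X (t + c) with hE
    have hEc : Continuous E :=
      (z_cont.comp (by fun_prop : Continuous fun t : ℝ => t + c)).sub
        ((PN_cont X).comp (by fun_prop : Continuous fun t : ℝ => t + c))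
    have h4 : ∀ t, z (t + c) - PN N (t + c) =
        (∑ n ∈ S, ((n : ℂ) ^ (-(1 / 2) : ℂ) * en n t) * en n c) + E t := by
      intro t
      have h5 := PN_sub hNX (t + c)
      have h6 : ∑ n ∈ S, ((n : ℂ) ^ (-(1 / 2) : ℂ) * en n t) * en n c =
          PN X (t + c) - PN N (t + c) := by
        rw [h5]
        refine Finset.sum_congr rfl fun n hn => ?_
        rw [en_add (hSn n hn), mul_assoc]
      rw [h6, hE]
      ring
    have hFG : ∀ n ∈ S, IntervalIntegrable
        (fun t => F t * ((n : ℂ) ^ (-(1 / 2) : ℂ) * en n t) * en n c) volume T (T + H) :=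
      fun n hn => (int_mul hab hF (continuous_const.mul (en_cont (hSn n hn)))).mul_const _
    have h5 : ∫ t in T..(T + H), F t * (z (t + c) - PN N (t + c)) =
        (∑ n ∈ S, ζ n * en n c) + ∫ t in T..(T + H), F t * E t := by
      have e1 : ∀ t, F t * (z (t + c) - PN N (t + c)) =
          (∑ n ∈ S, F t * ((n : ℂ) ^ (-(1 / 2) : ℂ) * en n t) * en n c) + F t * E t := by
        intro t
        rw [h4, mul_add, Finset.mul_sum]
        congr 1
        refine Finset.sum_congr rfl fun n _ => ?_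
        ring
      simp only [e1]
      have hsum : IntervalIntegrable (fun t => ∑ n ∈ S, F t * ((n : ℂ) ^ (-(1 / 2) : ℂ) * en n t) *
          en n c) volume T (T + H) := by
        have e2 : (fun t => ∑ n ∈ S, F t * ((n : ℂ) ^ (-(1 / 2) : ℂ) * en n t) * en n c) =
            ∑ n ∈ S, fun t => F t * ((n : ℂ) ^ (-(1 / 2) : ℂ) * en n t) * en n c := by
          funext t
          rw [Finset.sum_apply]
        rw [e2]
        exact IntervalIntegrable.sum S hFG
      rw [intervalIntegral.integral_add hsum (int_mul hab hF hEc),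
        intervalIntegral.integral_finsetSum hFG]
      congr 1
      refine Finset.sum_congr rfl fun n _ => ?_
      rw [intervalIntegral.integral_mul_const]
      congr 1
      rw [hζ]
      simp only
      rw [← intervalIntegral.integral_const_mul]
      refine intervalIntegral.integral_congr fun t _ => ?_
      ring
    have h6 : ‖∫ t in T..(T + H), F t * E t‖ ^ 2 ≤ P * Er := by
      have hE2 : IntervalIntegrable (fun t => ‖E t‖ ^ 2) volume T (T + H) :=
        (hEc.norm.pow 2).intervalIntegrable _ _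
      have hFE : IntervalIntegrable (fun t => ‖F t‖ * ‖E t‖) volume T (T + H) := by
        have := (int_mul hab hF hEc).norm
        simpa only [norm_mul] using this
      refine (cs_int hab (int_sq hab hF) hE2 hFE).trans ?_
      refine mul_le_mul_of_nonneg_left ?_ hP0
      have h7 : ∀ t ∈ Icc T (T + H), ‖E t‖ ^ 2 ≤ C1 ^ 2 / T := by
        intro t ht
        have h8 := hem T (t + c) X hT (by linarith [ht.1, hc.1]) (by linarith [ht.2, hc.2]) hX1 hX2
        have h9 := pow_le_pow_left₀ (norm_nonneg _) h8 2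
        refine h9.trans (le_of_eq ?_)
        rw [mul_pow, ← Real.rpow_natCast (T ^ (-(1 / 2) : ℝ)), ← Real.rpow_mul hT0.le]
        norm_num
        rw [Real.rpow_neg_one, div_eq_mul_inv]
      calc ∫ t in T..(T + H), ‖E t‖ ^ 2 ≤ ∫ t in T..(T + H), C1 ^ 2 / T :=
            intervalIntegral.integral_mono_on hab hE2 (continuous_const.intervalIntegrable _ _) h7
        _ = Er := by
            rw [intervalIntegral.integral_const, smul_eq_mul, hEr]
            ring
    rw [h5]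
    set x1 := ∑ n ∈ S, ζ n * en n c
    set x2 := ∫ t in T..(T + H), F t * E t
    have h7 : ‖x1 + x2‖ ^ 2 ≤ 2 * ‖x1‖ ^ 2 + 2 * ‖x2‖ ^ 2 := by
      have h8 := norm_add_le x1 x2
      have h9 := pow_le_pow_left₀ (norm_nonneg _) h8 2
      nlinarith [sq_nonneg (‖x1‖ - ‖x2‖)]
    linarith
  -- the blocks
  set r := Nat.log 2 X + 1 with hrd
  have hr : (r : ℝ) ≤ 7 * L := by
    rw [hrd]
    push_cast
    exact log_blk hT hXn hX2
  have hex : ∀ n ∈ S, ∃ i < r, N * 2 ^ i < n ∧ n ≤ N * 2 ^ (i + 1) := by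
    intro n hn
    rw [hS, Finset.mem_Ioc] at hn
    refine exists_blk r ?_ hn.1
    have h5 := Nat.lt_pow_succ_log_self (b := 2) (by norm_num) X
    have h6 : 2 ^ r ≤ N * 2 ^ r := Nat.le_mul_of_pos_left _ hN1
    have h7 : 2 ^ (Nat.log 2 X).succ = 2 ^ r := rfl
    have h8 := hn.2
    omega
  have hind : ∃ ind : ℕ → ℕ, ∀ n ∈ S, ind n < r ∧ N * 2 ^ (ind n) < n ∧
      n ≤ N * 2 ^ (ind n + 1) := by
    refine ⟨fun n => if h : n ∈ S then (hex n h).choose else 0, fun n hn => ?_⟩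
    simp only [hn, dif_pos]
    exact (hex n hn).choose_spec
  obtain ⟨ind, hind⟩ := hind
  have hc1 : ∀ S' : Finset ℕ, S' ⊆ S → Continuous fun c => ‖∑ n ∈ S', ζ n * en n c‖ ^ 2 := by
    intro S' hS'
    refine (Continuous.norm ?_).pow 2
    exact continuous_finsetSum _ fun n hn => continuous_const.mul (en_cont (hSn n (hS' hn)))
  have hlow : ∫ c in (0 : ℝ)..U, ‖∑ n ∈ S, ζ n * en n c‖ ^ 2 ≤
      49 * L ^ 2 * (C2 * C3 * (H * U / N + 10 * T) * P) := by
    set Bd := C2 * C3 * (H * U / N + 10 * T) * P with hBd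
    have hBd0 : 0 ≤ Bd := by positivity
    have h4 : ∀ c : ℝ, ‖∑ n ∈ S, ζ n * en n c‖ ^ 2 ≤
        r * ∑ i ∈ Finset.range r, ‖∑ n ∈ S.filter (fun n => ind n = i), ζ n * en n c‖ ^ 2 := by
      intro c
      rw [← Finset.sum_fiberwise_of_maps_to (s := S) (t := Finset.range r) (g := ind)
        (fun n hn => Finset.mem_range.2 (hind n hn).1)]
      have := norm_sum_sq (Finset.range r)
        (fun i => ∑ n ∈ S.filter (fun n => ind n = i), ζ n * en n c)
      rwa [Finset.card_range] at this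
    have h5 : ∀ i ∈ Finset.range r, ∫ c in (0 : ℝ)..U,
        ‖∑ n ∈ S.filter (fun n => ind n = i), ζ n * en n c‖ ^ 2 ≤ Bd := by
      intro i hi
      rcases Finset.eq_empty_or_nonempty (S.filter (fun n => ind n = i)) with hem' | ⟨n₀, hn₀⟩
      · rw [hem']
        simpa using hBd0
      · rw [Finset.mem_filter] at hn₀
        have h6 := (hind n₀ hn₀.1).2.1
        rw [hn₀.2] at h6
        have h7 : n₀ ≤ X := (Finset.mem_Ioc.1 hn₀.1).2
        have h8 : N * 2 ^ i ≤ X := by omega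
        have h9 : ((N * 2 ^ i : ℕ) : ℝ) ≤ X := by exact_mod_cast h8
        refine blk hC2 hC3 hms hmt (K := N * 2 ^ i) hT hH1 hHT hU1 hUT hN1 hF
          (Nat.le_mul_of_pos_right _ (by positivity)) (h9.trans hX2) _ ?_
        intro n hn
        rw [Finset.mem_filter] at hn
        obtain ⟨-, h10, h11⟩ := hind n hn.1
        rw [hn.2] at h10 h11
        refine ⟨h10, ?_⟩
        rw [pow_succ] at h11
        linarith
    calc ∫ c in (0 : ℝ)..U, ‖∑ n ∈ S, ζ n * en n c‖ ^ 2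
        ≤ ∫ c in (0 : ℝ)..U, r * ∑ i ∈ Finset.range r,
            ‖∑ n ∈ S.filter (fun n => ind n = i), ζ n * en n c‖ ^ 2 := by
          refine intervalIntegral.integral_mono_on hU0 ?_ ?_ fun c _ => h4 c
          · exact (hc1 S (Finset.Subset.refl _)).intervalIntegrable _ _
          · exact (continuous_const.mul (continuous_finsetSum _ fun i _ =>
              hc1 _ (Finset.filter_subset _ _))).intervalIntegrable _ _
      _ = r * ∑ i ∈ Finset.range r, ∫ c in (0 : ℝ)..U,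
            ‖∑ n ∈ S.filter (fun n => ind n = i), ζ n * en n c‖ ^ 2 := by
          rw [intervalIntegral.integral_const_mul, intervalIntegral.integral_finsetSum]
          intro i _
          exact (hc1 _ (Finset.filter_subset _ _)).intervalIntegrable _ _
      _ ≤ r * ∑ i ∈ Finset.range r, Bd := by
          gcongr with i hi
          exact h5 i hi
      _ = (r : ℝ) ^ 2 * Bd := by
          rw [Finset.sum_const, Finset.card_range, nsmul_eq_mul]
          ring
      _ ≤ (7 * L) ^ 2 * Bd := by gcongr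
      _ = _ := by ring
  -- the conclusion
  have hUE : U * (2 * (P * Er)) ≤ 2 * C1 ^ 2 * T * P := by
    have h4 : U * Er ≤ C1 ^ 2 * T := by
      have h5 : U * Er = C1 ^ 2 * (U * H / T) := by rw [hEr]; ring
      have h6 : U * H / T ≤ T := by
        rw [div_le_iff₀ hT0]
        exact mul_le_mul hUT hHT (by linarith) (by linarith)
      rw [h5]
      gcongr
    calc U * (2 * (P * Er)) = 2 * (U * Er) * P := by ring
      _ ≤ 2 * (C1 ^ 2 * T) * P := by gcongr
      _ = _ := by ring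
  have hfin : 2 * (49 * L ^ 2 * (C2 * C3 * (H * U / N + 10 * T) * P)) + U * (2 * (P * Er)) ≤
      (980 * (C2 * C3) + 2 * C1 ^ 2) * L ^ 2 * (H * U / N + T) * P := by
    have hHU : 0 ≤ H * U / N := by positivity
    have h4 : 2 * (49 * L ^ 2 * (C2 * C3 * (H * U / N + 10 * T) * P)) ≤
        980 * (C2 * C3) * L ^ 2 * (H * U / N + T) * P := by
      calc 2 * (49 * L ^ 2 * (C2 * C3 * (H * U / N + 10 * T) * P))
          ≤ 2 * (49 * L ^ 2 * (C2 * C3 * (10 * (H * U / N + T)) * P)) := by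
            gcongr
            linarith
        _ = _ := by ring
    have h5 : 2 * C1 ^ 2 * T * P ≤ 2 * C1 ^ 2 * L ^ 2 * (H * U / N + T) * P := by
      have h6 : T ≤ L ^ 2 * (H * U / N + T) := by
        have h7 : 1 ≤ L ^ 2 := one_le_pow₀ hL
        nlinarith
      calc 2 * C1 ^ 2 * T * P ≤ 2 * C1 ^ 2 * (L ^ 2 * (H * U / N + T)) * P := by gcongr
        _ = _ := by ring
    calc _ ≤ 980 * (C2 * C3) * L ^ 2 * (H * U / N + T) * P + 2 * C1 ^ 2 * T * P :=
          add_le_add h4 hUE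
      _ ≤ 980 * (C2 * C3) * L ^ 2 * (H * U / N + T) * P +
          2 * C1 ^ 2 * L ^ 2 * (H * U / N + T) * P := by linarith
      _ = _ := by ring
  by_cases hint : IntervalIntegrable
      (fun c => ‖∫ t in T..(T + H), F t * (z (t + c) - PN N (t + c))‖ ^ 2) volume 0 U
  · have hc2 : Continuous fun c => 2 * ‖∑ n ∈ S, ζ n * en n c‖ ^ 2 :=
      continuous_const.mul (hc1 S (Finset.Subset.refl _))
    calc ∫ c in (0 : ℝ)..U, ‖∫ t in T..(T + H), F t * (z (t + c) - PN N (t + c))‖ ^ 2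
        ≤ ∫ c in (0 : ℝ)..U, (2 * ‖∑ n ∈ S, ζ n * en n c‖ ^ 2 + 2 * (P * Er)) := by
          refine intervalIntegral.integral_mono_on hU0 hint ?_ hpt
          exact (hc2.add continuous_const).intervalIntegrable _ _
      _ = 2 * (∫ c in (0 : ℝ)..U, ‖∑ n ∈ S, ζ n * en n c‖ ^ 2) + U * (2 * (P * Er)) := by
          rw [intervalIntegral.integral_add (hc2.intervalIntegrable _ _)
            (continuous_const.intervalIntegrable _ _), intervalIntegral.integral_const_mul,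
            intervalIntegral.integral_const, sub_zero, smul_eq_mul]
      _ ≤ 2 * (49 * L ^ 2 * (C2 * C3 * (H * U / N + 10 * T) * P)) + U * (2 * (P * Er)) := by
          gcongr
      _ ≤ _ := hfin
  · rw [intervalIntegral.integral_undef hint]
    positivity

end

end Pool.Agent.N879.PU
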