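import Pool.Agent.N879.PU.Stm
import Pool.Agent.N879.PZ.Gcm
import Pool.Agent.TH612.GS.Z

set_option autoImplicit false

/-!
Project PU (helper879), leaf REG (helper527): almost all points are regular.
-/

namespace Pool.Agent.N879.PU

open Complex Filter Topology MeasureTheory Set
open Pool.Agent.TH612.GS (z zN PN mP SN SP GM zr Sep)
open Pool.Agent.N879.PZ (Wb)

noncomputable section

namespace Regaux

lemma mean_window (f : ℝ → ℝ) (hf : Continuous f) (h0 : ∀ x, 0 ≤ f x) (T H U : ℝ) (hH : 0 ≤ H)
    (hU : 0 ≤ U) :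
    ∫ t in T..(T + H), (∫ u in t..(t + U), f u) ≤ U * ∫ u in T..(T + (H + U)), f u := by
  have h := Pool.Agent.N879.PZ.Gcmaux.mean_window (fun x => f (x + T))
    (hf.comp (continuous_id.add continuous_const)) (fun x => h0 _) H U hH hU
  have e1 : ∀ t : ℝ, ∫ u in t..(t + U), f (u + T) = ∫ u in (t + T)..((t + T) + U), f u := by
    intro t
    rw [intervalIntegral.integral_comp_add_right (fun x => f x) T]
    congr 1
    ring
  simp only [e1] at h
  rw [intervalIntegral.integral_comp_add_right (fun t => ∫ u in t..(t + U), f u) T,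
    intervalIntegral.integral_comp_add_right (fun x => f x) T] at h
  have e2 : (0 : ℝ) + T = T := zero_add T
  have e3 : H + T = T + H := add_comm _ _
  have e4 : H + U + T = T + (H + U) := by ring
  rw [e2, e3, e4] at h
  exact h

end Regaux

theorem t_REG (h : S_SMS) : S_REG := by
  obtain ⟨C, A, hC, hM⟩ := h
  refine ⟨3 * C * 2 ^ A, A, by positivity, ?_⟩
  intro T H U V hT hH hHT hU hUT hHU hV
  have hT0 : 0 < T := by linarith
  have hU0 : 0 < U := by linarith
  have hH0 : 0 < H := by linarith
  have hlog : 0 ≤ Real.log T := Real.log_nonneg (by linarith)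
  have hA1 : (1 : ℝ) ≤ 2 ^ A := one_le_pow₀ (by norm_num)
  have hLA : 0 ≤ Real.log T ^ A := pow_nonneg hlog A
  -- the second part
  have hsec : T ^ (1 / 2 : ℝ) ≤ U → ∀ t ∈ Icc T (T + H),
      ∫ u in t..(t + U), ‖z u‖ ^ 2 ≤ 3 * C * 2 ^ A * U * Real.log T ^ A := by
    intro hTU t ht
    have ht3 : 3 ≤ t := hT.trans ht.1
    have ht2 : t ≤ 2 * T := by linarith [ht.2]
    have h1 := hM t U ht3 hU0.le (by linarith [ht.1])
    refine h1.trans ?_
    have h2 : t ^ (1 / 2 : ℝ) ≤ 2 * U := by
      rw [← Real.sqrt_eq_rpow] at hTU ⊢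
      calc √t ≤ √(4 * T) := Real.sqrt_le_sqrt (by linarith)
        _ = 2 * √T := by
          rw [Real.sqrt_mul (by norm_num), show (4 : ℝ) = 2 ^ 2 by norm_num,
            Real.sqrt_sq (by norm_num)]
        _ ≤ 2 * U := by linarith
    have h3 : Real.log t ≤ 2 * Real.log T := by
      calc Real.log t ≤ Real.log (2 * T) := Real.log_le_log (by linarith) ht2
        _ = Real.log 2 + Real.log T := Real.log_mul (by norm_num) hT0.ne'
        _ ≤ 2 * Real.log T := by
          have : Real.log 2 ≤ Real.log T := Real.log_le_log (by norm_num) (by linarith)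
          linarith
    have h4 : Real.log t ^ A ≤ 2 ^ A * Real.log T ^ A := by
      rw [← mul_pow]
      exact pow_le_pow_left₀ (Real.log_nonneg (by linarith)) h3 A
    calc C * (U + t ^ (1 / 2 : ℝ)) * Real.log t ^ A ≤
          C * (3 * U) * (2 ^ A * Real.log T ^ A) := by
          refine mul_le_mul ?_ h4 (pow_nonneg (Real.log_nonneg (by linarith)) A) (by positivity)
          refine mul_le_mul_of_nonneg_left ?_ hC.le
          linarith
      _ = 3 * C * 2 ^ A * U * Real.log T ^ A := by ring
  refine ⟨?_, hsec⟩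
  -- the mean value
  have hc : Continuous fun u => ‖z u‖ ^ 2 := Pool.Agent.TH612.GS.z_cont.norm.pow 2
  have hfi : ∀ a b : ℝ, IntervalIntegrable (fun u => ‖z u‖ ^ 2) volume a b := fun a b =>
    hc.intervalIntegrable a b
  set g : ℝ → ℝ := fun t => ∫ u in t..(t + U), ‖z u‖ ^ 2 with hg
  have hgc : Continuous g := by
    have hG : Continuous fun x : ℝ => ∫ u in (0 : ℝ)..x, ‖z u‖ ^ 2 :=
      intervalIntegral.continuous_primitive (fun a b => hfi a b) 0
    have : g = fun t => (∫ u in (0 : ℝ)..(t + U), ‖z u‖ ^ 2) - ∫ u in (0 : ℝ)..t, ‖z u‖ ^ 2 := by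
      funext t
      exact (intervalIntegral.integral_interval_sub_left (hfi 0 (t + U)) (hfi 0 t)).symm
    rw [this]
    exact (hG.comp (continuous_id.add continuous_const)).sub hG
  have hg0 : ∀ t, 0 ≤ g t := fun t =>
    intervalIntegral.integral_nonneg (by linarith) fun u _ => sq_nonneg _
  have hmean : ∫ t in Icc T (T + H), g t ≤ U * (3 * C * 2 ^ A * H * Real.log T ^ A) := by
    rw [integral_Icc_eq_integral_Ioc, ← intervalIntegral.integral_of_le (by linarith)]
    rcases le_total U H with hcase | hcase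
    · -- `U ≤ H`
      have h1 := Regaux.mean_window (fun u => ‖z u‖ ^ 2) hc (fun x => sq_nonneg _) T H U hH0.le
        hU0.le
      refine h1.trans (mul_le_mul_of_nonneg_left ?_ hU0.le)
      refine (hM T (H + U) hT (by linarith) (by linarith)).trans ?_
      have h2 : T ^ (1 / 2 : ℝ) ≤ H := by
        rw [← Real.sqrt_eq_rpow, Real.sqrt_le_left hH0.le]
        nlinarith
      calc C * (H + U + T ^ (1 / 2 : ℝ)) * Real.log T ^ A ≤ C * (3 * H) * Real.log T ^ A := by
            refine mul_le_mul_of_nonneg_right ?_ hLA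
            refine mul_le_mul_of_nonneg_left ?_ hC.le
            linarith
        _ ≤ C * (3 * H) * Real.log T ^ A * 2 ^ A := le_mul_of_one_le_right (by positivity) hA1
        _ = 3 * C * 2 ^ A * H * Real.log T ^ A := by ring
    · -- `H ≤ U`
      have h2 : T ^ (1 / 2 : ℝ) ≤ U := by
        rw [← Real.sqrt_eq_rpow, Real.sqrt_le_left hU0.le]
        nlinarith
      have h3 : ∫ t in T..(T + H), g t ≤ ∫ _t in T..(T + H), 3 * C * 2 ^ A * U * Real.log T ^ A :=
        intervalIntegral.integral_mono_on (by linarith) (hgc.intervalIntegrable _ _)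
          intervalIntegrable_const fun t ht => hsec h2 t ht
      rw [intervalIntegral.integral_const, smul_eq_mul, add_sub_cancel_left] at h3
      refine h3.trans (le_of_eq ?_)
      ring
  have hmk := mul_meas_ge_le_integral_of_nonneg (μ := volume.restrict (Icc T (T + H)))
    (Filter.Eventually.of_forall hg0) (hgc.continuousOn.integrableOn_compact isCompact_Icc) (U * V)
  have hsub : Icc T (T + H) \ Gu U V ⊆ {t | U * V ≤ g t} ∩ Icc T (T + H) := by
    intro t ht
    refine ⟨?_, ht.1⟩
    have h2 : ¬ g t ≤ U * V := ht.2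
    exact (not_le.1 h2).le
  have hmeas : MeasurableSet {t | U * V ≤ g t} := (isClosed_le continuous_const hgc).measurableSet
  have hreal : (volume.restrict (Icc T (T + H))).real {t | U * V ≤ g t} ≤
      3 * C * 2 ^ A * H * Real.log T ^ A / V := by
    rw [le_div_iff₀ hV]
    have h5 := hmk.trans hmean
    have h6 : U * ((volume.restrict (Icc T (T + H))).real {t | U * V ≤ g t} * V)
        ≤ U * (3 * C * 2 ^ A * H * Real.log T ^ A) := by
      calc U * ((volume.restrict (Icc T (T + H))).real {t | U * V ≤ g t} * V)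
          = U * V * (volume.restrict (Icc T (T + H))).real {t | U * V ≤ g t} := by ring
        _ ≤ U * (3 * C * 2 ^ A * H * Real.log T ^ A) := h5
    exact le_of_mul_le_mul_left h6 hU0
  calc volume (Icc T (T + H) \ Gu U V) ≤ volume ({t | U * V ≤ g t} ∩ Icc T (T + H)) :=
        measure_mono hsub
    _ = (volume.restrict (Icc T (T + H))) {t | U * V ≤ g t} := (Measure.restrict_apply hmeas).symm
    _ = ENNReal.ofReal ((volume.restrict (Icc T (T + H))).real {t | U * V ≤ g t}) := by
        rw [measureReal_def, ENNReal.ofReal_toReal]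
        exact measure_ne_top _ _
    _ ≤ ENNReal.ofReal (3 * C * 2 ^ A * H * Real.log T ^ A / V) := ENNReal.ofReal_le_ofReal hreal

end

end Pool.Agent.N879.PU
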