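import Pool.Agent.N879.PU.Stm
import Pool.Agent.N879.PZ.Telc
import Pool.Agent.TH521.GS.Rep

set_option autoImplicit false

/-!
Project PU: replacement of the factors of a product of functions of separately shifted variables,
one at a time, over a measurable set of base points.
-/

namespace Pool.Agent.N879.PU

open Complex Filter Topology MeasureTheory Set
open Pool.Agent.TH612.GS (mP)
open Pool.Agent.N879.PZ (Wb)
open Pool.Agent.N879.PZ.Telcaux (mor lint1 meas_int wb_mul wb_int wb_int2 bb bb_succ bb_nonneg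
  wint hyp)
open Pool.Agent.TH521.GS (lint_prod lint_equiv)
open scoped ENNReal

noncomputable section

namespace Teluaux

/-- the product of the second moments -/
lemma pmom {U V : ℝ} (hV0 : 0 ≤ V) : ∀ (n : ℕ) (φ : Fin n → ℝ → ℂ), (∀ i, Continuous (φ i)) →
    (∀ i, ∫⁻ y, ENNReal.ofReal (‖φ i y‖ ^ 2) ∂(volume.restrict (Icc 0 U)) ≤ ENNReal.ofReal V) →
    ∫⁻ γ, ENNReal.ofReal (‖∏ i, φ i (γ i)‖ ^ 2) ∂(mP (Fin n) U) ≤ ENNReal.ofReal (V ^ n) := by
  intro n
  induction n with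
  | zero =>
    intro φ _ _
    simp [mP, Measure.pi_empty_univ]
  | succ n ih =>
    intro φ hφ h
    have hc : Continuous fun γ : Fin (n + 1) → ℝ => ‖∏ i, φ i (γ i)‖ ^ 2 := by fun_prop
    rw [lint_prod U _ (mor hc.measurable)]
    have hcc : Continuous fun p : ℝ × (Fin n → ℝ) => (Fin.cons p.1 p.2 : Fin (n + 1) → ℝ) :=
      Continuous.finCons (A := fun _ => ℝ) continuous_fst continuous_snd
    have hcomp : Continuous fun p : ℝ × (Fin n → ℝ) =>
        ‖∏ i, φ i ((Fin.cons p.1 p.2 : Fin (n + 1) → ℝ) i)‖ ^ 2 := hc.comp hcc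
    rw [lintegral_prod _ (mor hcomp.measurable).aemeasurable]
    have e1 : ∀ (y : ℝ) (γ : Fin n → ℝ), ‖∏ i, φ i ((Fin.cons y γ : Fin (n + 1) → ℝ) i)‖ ^ 2 =
        ‖φ 0 y‖ ^ 2 * ‖∏ i : Fin n, φ i.succ (γ i)‖ ^ 2 := by
      intro y γ
      rw [Fin.prod_univ_succ, norm_mul, mul_pow]
      simp only [Fin.cons_zero, Fin.cons_succ]
    have e2 : ∀ y : ℝ, ∫⁻ γ : Fin n → ℝ,
        ENNReal.ofReal (‖∏ i, φ i ((Fin.cons y γ : Fin (n + 1) → ℝ) i)‖ ^ 2) ∂(mP (Fin n) U) ≤
        ENNReal.ofReal (‖φ 0 y‖ ^ 2) * ENNReal.ofReal (V ^ n) := by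
      intro y
      simp_rw [e1, ENNReal.ofReal_mul (sq_nonneg ‖φ 0 y‖)]
      rw [lintegral_const_mul _ (mor (by fun_prop : Continuous
        fun γ : Fin n → ℝ => ‖∏ i : Fin n, φ i.succ (γ i)‖ ^ 2).measurable)]
      exact mul_le_mul' le_rfl (ih (fun i => φ i.succ) (fun i => hφ i.succ) fun i => h i.succ)
    refine (lintegral_mono e2).trans ?_
    have hc0 : Continuous fun y : ℝ => ‖φ 0 y‖ ^ 2 := (hφ 0).norm.pow 2
    rw [lintegral_mul_const _ (mor hc0.measurable),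
      pow_succ, ENNReal.ofReal_mul (pow_nonneg hV0 n), mul_comm]
    exact mul_le_mul' le_rfl (h 0)

section

variable {a b U K W : ℝ} {G : Set ℝ}

lemma core (hK : 0 ≤ K) (hW : 0 ≤ W) : ∀ (n : ℕ) (f g : Fin n → ℝ → ℂ),
    (∀ i, Continuous (f i)) → (∀ i, Continuous (g i)) →
    (∀ i, ∀ v : ℝ → ℂ, Wb a b v →
      ∫⁻ y, ENNReal.ofReal (‖∫ t in Icc a b, v t * (f i (t + y) - g i (t + y))‖ ^ 2)
        ∂(volume.restrict (Icc 0 U)) ≤
      ENNReal.ofReal K * ∫⁻ t in Icc a b, ENNReal.ofReal (‖v t‖ ^ 2)) →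
    (∀ i, ∀ t ∈ G, t ∈ Icc a b → ∫⁻ y, ENNReal.ofReal (‖f i (t + y)‖ ^ 2)
      ∂(volume.restrict (Icc 0 U)) ≤ ENNReal.ofReal W) →
    (∀ i, ∀ t ∈ G, t ∈ Icc a b → ∫⁻ y, ENNReal.ofReal (‖g i (t + y)‖ ^ 2)
      ∂(volume.restrict (Icc 0 U)) ≤ ENNReal.ofReal W) →
    ∀ (v : ℝ → ℂ), Wb a b v → (∀ t, t ∉ G → v t = 0) →
      ∫⁻ c, ENNReal.ofReal (‖∫ t in Icc a b, v t *
        (∏ j : Fin n, f j (t + c j) - ∏ j, g j (t + c j))‖ ^ 2) ∂(mP (Fin n) U) ≤
      ENNReal.ofReal (bb K W n) * ∫⁻ t in Icc a b, ENNReal.ofReal (‖v t‖ ^ 2) := by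
  intro n
  induction n with
  | zero =>
    intro f g _ _ _ _ _ v _ _
    simp
  | succ n ih =>
    intro f g hf hg h1 h2 h3 v hv hG
    have hf0 := hf 0
    have hg0 := hg 0
    have hm0 : Measurable fun c : Fin (n + 1) → ℝ => ∫ t in Icc a b, v t *
        (∏ j, f j (t + c j) - ∏ j, g j (t + c j)) := by
      refine meas_int ((hv.1.comp measurable_snd).mul (Continuous.measurable ?_))
      fun_prop
    rw [lint_prod U _ (mor (hm0.norm.pow_const 2))]
    obtain ⟨S1, hS1⟩ : ∃ S1 : ℝ × (Fin n → ℝ) → ℂ, S1 = fun p => ∫ t in Icc a b,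
      (v t * ∏ j : Fin n, f j.succ (t + p.2 j)) * (f 0 (t + p.1) - g 0 (t + p.1)) := ⟨_, rfl⟩
    obtain ⟨S2, hS2⟩ : ∃ S2 : ℝ × (Fin n → ℝ) → ℂ, S2 = fun p => ∫ t in Icc a b,
      (v t * g 0 (t + p.1)) * (∏ j : Fin n, f j.succ (t + p.2 j) -
        ∏ j : Fin n, g j.succ (t + p.2 j)) := ⟨_, rfl⟩
    have c1 : Measurable fun p => ‖S1 p‖ ^ 2 := by
      rw [hS1]
      refine (meas_int (X := ℝ × (Fin n → ℝ)) (((hv.1.comp measurable_snd).mul
        (Continuous.measurable ?_)).mul (Continuous.measurable ?_))).norm.pow_const 2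
      · fun_prop
      · fun_prop
    have c2 : Measurable fun p => ‖S2 p‖ ^ 2 := by
      rw [hS2]
      refine (meas_int (X := ℝ × (Fin n → ℝ)) (((hv.1.comp measurable_snd).mul
        (Continuous.measurable ?_)).mul (Continuous.measurable ?_))).norm.pow_const 2
      · fun_prop
      · fun_prop
    have hle : ∀ p : ℝ × (Fin n → ℝ), ENNReal.ofReal (‖∫ t in Icc a b, v t *
        (∏ j, f j (t + (Fin.cons p.1 p.2 : Fin (n + 1) → ℝ) j) -
          ∏ j, g j (t + (Fin.cons p.1 p.2 : Fin (n + 1) → ℝ) j))‖ ^ 2) ≤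
        2 * ENNReal.ofReal (‖S1 p‖ ^ 2) + 2 * ENNReal.ofReal (‖S2 p‖ ^ 2) := by
      intro p
      have i1 : Integrable (fun t => (v t * ∏ j : Fin n, f j.succ (t + p.2 j)) *
          (f 0 (t + p.1) - g 0 (t + p.1))) (volume.restrict (Icc a b)) :=
        wb_int (wb_mul (wb_mul hv (by fun_prop)) (by fun_prop))
      have i2 : Integrable (fun t => (v t * g 0 (t + p.1)) *
          (∏ j : Fin n, f j.succ (t + p.2 j) - ∏ j : Fin n, g j.succ (t + p.2 j)))
          (volume.restrict (Icc a b)) :=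
        wb_int (wb_mul (wb_mul hv (by fun_prop)) (by fun_prop))
      have e1 : ∫ t in Icc a b, v t * (∏ j, f j (t + (Fin.cons p.1 p.2 : Fin (n + 1) → ℝ) j) -
          ∏ j, g j (t + (Fin.cons p.1 p.2 : Fin (n + 1) → ℝ) j)) = S1 p + S2 p := by
        rw [hS1, hS2]
        simp only
        rw [← integral_add i1 i2]
        congr 1
        funext t
        rw [Fin.prod_univ_succ, Fin.prod_univ_succ]
        simp only [Fin.cons_zero, Fin.cons_succ]
        ring
      rw [e1]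
      have e2 : ‖S1 p + S2 p‖ ^ 2 ≤ 2 * ‖S1 p‖ ^ 2 + 2 * ‖S2 p‖ ^ 2 := by
        have h4 := norm_add_le (S1 p) (S2 p)
        have h5 : ‖S1 p + S2 p‖ ^ 2 ≤ (‖S1 p‖ + ‖S2 p‖) ^ 2 := by gcongr
        nlinarith [sq_nonneg (‖S1 p‖ - ‖S2 p‖)]
      refine (ENNReal.ofReal_le_ofReal e2).trans ?_
      rw [ENNReal.ofReal_add (by positivity) (by positivity), ENNReal.ofReal_mul (by norm_num),
        ENNReal.ofReal_mul (by norm_num)]
      simp
    refine (lintegral_mono hle).trans ?_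
    rw [lintegral_add_left ((mor c1).const_mul 2), lintegral_const_mul _ (mor c1),
      lintegral_const_mul _ (mor c2)]
    obtain ⟨Q, hQ⟩ : ∃ Q : ℝ≥0∞, Q = ∫⁻ t in Icc a b, ENNReal.ofReal (‖v t‖ ^ 2) := ⟨_, rfl⟩
    -- the first part
    have b1 : ∫⁻ p, ENNReal.ofReal (‖S1 p‖ ^ 2)
        ∂((volume.restrict (Icc 0 U)).prod (mP (Fin n) U)) ≤ ENNReal.ofReal (K * W ^ n) * Q := by
      rw [lintegral_prod_symm _ (mor c1).aemeasurable]
      have e3 : ∀ γ : Fin n → ℝ, ∫⁻ x, ENNReal.ofReal (‖S1 (x, γ)‖ ^ 2)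
          ∂(volume.restrict (Icc 0 U)) ≤
          ENNReal.ofReal K * ∫⁻ t in Icc a b,
            ENNReal.ofReal (‖v t‖ ^ 2 * ‖∏ j : Fin n, f j.succ (t + γ j)‖ ^ 2) := by
        intro γ
        have h4 := h1 0 (fun t => v t * ∏ j : Fin n, f j.succ (t + γ j))
          (wb_mul hv (by fun_prop))
        simp only [norm_mul, mul_pow] at h4
        rw [hS1]
        exact h4
      refine (lintegral_mono e3).trans ?_
      rw [lintegral_const_mul' _ _ ENNReal.ofReal_ne_top, ENNReal.ofReal_mul hK, mul_assoc, hQ]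
      refine mul_le_mul' le_rfl ?_
      have cm : Measurable (Function.uncurry fun (t : ℝ) (γ : Fin n → ℝ) =>
          ‖∏ j : Fin n, f j.succ (t + γ j)‖ ^ 2) := by
        refine Continuous.measurable ?_
        fun_prop
      have cp : ∀ t ∈ G, t ∈ Icc a b → ∫⁻ γ : Fin n → ℝ,
          ENNReal.ofReal (‖∏ j : Fin n, f j.succ (t + γ j)‖ ^ 2) ∂(mP (Fin n) U) ≤
          ENNReal.ofReal (W ^ n) := fun t ht ht' =>
        pmom hW n (fun j y => f j.succ (t + y)) (fun j => by fun_prop)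
          fun j => h2 j.succ t ht ht'
      exact wint (X := Fin n → ℝ) (μ := mP (Fin n) U) (a := a) (b := b) (C := W ^ n) hv.1 hG
        (h := fun (t : ℝ) (γ : Fin n → ℝ) => ‖∏ j : Fin n, f j.succ (t + γ j)‖ ^ 2) cm cp
    -- the second part
    have b2 : ∫⁻ p, ENNReal.ofReal (‖S2 p‖ ^ 2)
        ∂((volume.restrict (Icc 0 U)).prod (mP (Fin n) U)) ≤
        ENNReal.ofReal (bb K W n * W) * Q := by
      rw [lintegral_prod _ (mor c2).aemeasurable]
      have e3 : ∀ x : ℝ, ∫⁻ γ, ENNReal.ofReal (‖S2 (x, γ)‖ ^ 2) ∂(mP (Fin n) U) ≤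
          ENNReal.ofReal (bb K W n) *
            ∫⁻ t in Icc a b, ENNReal.ofReal (‖v t‖ ^ 2 * ‖g 0 (t + x)‖ ^ 2) := by
        intro x
        have h4 := ih (fun j => f j.succ) (fun j => g j.succ) (fun j => hf j.succ)
          (fun j => hg j.succ) (fun j => h1 j.succ) (fun j => h2 j.succ) (fun j => h3 j.succ)
          (fun t => v t * g 0 (t + x)) (wb_mul hv (by fun_prop))
          (fun t ht => by rw [hG t ht, zero_mul])
        simp only [norm_mul, mul_pow] at h4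
        rw [hS2]
        exact h4
      refine (lintegral_mono e3).trans ?_
      rw [lintegral_const_mul' _ _ ENNReal.ofReal_ne_top, ENNReal.ofReal_mul (bb_nonneg hK hW n),
        mul_assoc, hQ]
      refine mul_le_mul' le_rfl ?_
      have cm : Measurable (Function.uncurry fun (t : ℝ) (x : ℝ) => ‖g 0 (t + x)‖ ^ 2) := by
        refine Continuous.measurable ?_
        fun_prop
      exact wint (X := ℝ) (μ := volume.restrict (Icc 0 U)) (a := a) (b := b) (C := W) hv.1 hG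
        (h := fun (t : ℝ) (x : ℝ) => ‖g 0 (t + x)‖ ^ 2) cm (h3 0)
    calc 2 * ∫⁻ p, ENNReal.ofReal (‖S1 p‖ ^ 2)
          ∂((volume.restrict (Icc 0 U)).prod (mP (Fin n) U)) +
        2 * ∫⁻ p, ENNReal.ofReal (‖S2 p‖ ^ 2)
          ∂((volume.restrict (Icc 0 U)).prod (mP (Fin n) U))
        ≤ 2 * (ENNReal.ofReal (K * W ^ n) * Q) + 2 * (ENNReal.ofReal (bb K W n * W) * Q) :=
          add_le_add (mul_le_mul' le_rfl b1) (mul_le_mul' le_rfl b2)
      _ = ENNReal.ofReal (2 * (K * W ^ n) + 2 * (bb K W n * W)) * Q := by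
          have t1 : 0 ≤ K * W ^ n := mul_nonneg hK (pow_nonneg hW n)
          have t2 : 0 ≤ bb K W n * W := mul_nonneg (bb_nonneg hK hW n) hW
          rw [ENNReal.ofReal_add (mul_nonneg (by norm_num) t1) (mul_nonneg (by norm_num) t2),
            ENNReal.ofReal_mul (by norm_num : (0 : ℝ) ≤ 2),
            ENNReal.ofReal_mul (by norm_num : (0 : ℝ) ≤ 2), add_mul, mul_assoc, mul_assoc]
          simp
      _ = ENNReal.ofReal (bb K W (n + 1)) * ∫⁻ t in Icc a b, ENNReal.ofReal (‖v t‖ ^ 2) := by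
          rw [bb_succ, hQ]

end

lemma bb_le {K V : ℝ} (hK : 0 ≤ K) (hV : 0 ≤ V) (n : ℕ) : bb K V n ≤ 4 ^ n * K * V ^ (n - 1) := by
  unfold bb
  refine mul_le_mul_of_nonneg_right (mul_le_mul_of_nonneg_right ?_ hK) (pow_nonneg hV _)
  have e : (4 : ℝ) ^ n = (2 ^ n) ^ 2 := by
    rw [← pow_mul, mul_comm, pow_mul]
    norm_num
  rw [e, pow_succ]
  nlinarith [sq_nonneg ((2 : ℝ) ^ n - 1)]

end Teluaux

open Teluaux in
theorem t_TELU : S_TELU := by
  intro ι _ a b U K W G f g hab hU hK hW hG hf hg h1 h2 h3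
  set n := Fintype.card ι with hn
  have e : ι ≃ Fin n := Fintype.equivFin ι
  have hv : Wb a b (G.indicator fun _ => (1 : ℂ)) := by
    refine ⟨measurable_const.indicator hG, 1, fun t _ => ?_⟩
    by_cases htG : t ∈ G
    · rw [indicator_of_mem htG, norm_one]
    · rw [indicator_of_notMem htG, norm_zero]
      norm_num
  have hv0 : ∀ t, t ∉ G → G.indicator (fun _ => (1 : ℂ)) t = 0 :=
    fun t ht => indicator_of_notMem ht _
  have key := core (a := a) (b := b) (U := U) (G := G) hK hW n (fun j => f (e.symm j))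
    (fun j => g (e.symm j)) (fun j => hf _) (fun j => hg _)
    (fun j => hyp hab hU (hf _) (hg _) hK (h1 _))
    (fun j t ht ht' => by
      have cf : Continuous fun y => ‖f (e.symm j) (t + y)‖ ^ 2 := by
        have := hf (e.symm j)
        fun_prop
      rw [lint1 hU.le cf.continuousOn.integrableOn_Icc fun y => sq_nonneg _]
      exact ENNReal.ofReal_le_ofReal (h2 _ t ht ht'))
    (fun j t ht ht' => by
      have cg : Continuous fun y => ‖g (e.symm j) (t + y)‖ ^ 2 := by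
        have := hg (e.symm j)
        fun_prop
      rw [lint1 hU.le cg.continuousOn.integrableOn_Icc fun y => sq_nonneg _]
      exact ENNReal.ofReal_le_ofReal (h3 _ t ht ht')) (G.indicator fun _ => (1 : ℂ)) hv hv0
  have e1 : ∀ (h : ι → ℝ → ℂ) (γ : Fin n → ℝ) (t : ℝ),
      ∏ j, h (e.symm j) (t + γ j) = ∏ i, h i (t + γ (e i)) := by
    intro h γ t
    rw [← Equiv.prod_comp e]
    simp
  have e2 : ∀ γ : ι → ℝ, ∫ t in G ∩ Icc a b, (∏ i, f i (t + γ i) - ∏ i, g i (t + γ i)) =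
      ∫ t in Icc a b, G.indicator (fun _ => (1 : ℂ)) t *
        (∏ i, f i (t + γ i) - ∏ i, g i (t + γ i)) := by
    intro γ
    rw [inter_comm, ← setIntegral_indicator hG]
    refine integral_congr_ae (Filter.Eventually.of_forall fun t => ?_)
    simp only
    by_cases htG : t ∈ G
    · rw [indicator_of_mem htG, indicator_of_mem htG, one_mul]
    · rw [indicator_of_notMem htG, indicator_of_notMem htG, zero_mul]
  simp_rw [e2]
  have hm0 : Measurable fun c : ι → ℝ => ∫ t in Icc a b, G.indicator (fun _ => (1 : ℂ)) t *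
      (∏ i, f i (t + c i) - ∏ i, g i (t + c i)) := by
    refine meas_int ((hv.1.comp measurable_snd).mul (Continuous.measurable ?_))
    fun_prop
  rw [lint_equiv e U _ (mor (hm0.norm.pow_const 2))]
  simp only [e1] at key
  refine key.trans ?_
  have e3 : ∫⁻ t in Icc a b, ENNReal.ofReal (‖G.indicator (fun _ => (1 : ℂ)) t‖ ^ 2) ≤
      ENNReal.ofReal (b - a) := by
    have e4 : ∀ t, ENNReal.ofReal (‖G.indicator (fun _ => (1 : ℂ)) t‖ ^ 2) ≤ 1 := by
      intro t
      by_cases htG : t ∈ G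
      · rw [indicator_of_mem htG]
        simp
      · rw [indicator_of_notMem htG]
        simp
    refine (lintegral_mono e4).trans ?_
    rw [lintegral_one, Measure.restrict_apply_univ, Real.volume_Icc]
  refine (mul_le_mul' (ENNReal.ofReal_le_ofReal (bb_le hK hW n)) e3).trans ?_
  rw [← ENNReal.ofReal_mul (by positivity)]

end

end Pool.Agent.N879.PU
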