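import Pool.Agent.N879.PU.Stm
import Pool.Agent.TH928.GS.MV

set_option autoImplicit false

/-!
Project PU (helper879), part WINU: windows of the model (helper695).
-/

namespace Pool.Agent.N879.PU

open Complex Filter Topology MeasureTheory Set
open Pool.Agent.TH612.GS (z zN PN mP)

namespace Winuaux

/-- the coefficients -/
noncomputable def aa (t : ℝ) (n : ℕ) : ℂ := (n : ℂ) ^ (-(1 / 2 + I * (t : ℂ)))

lemma norm_aa (t : ℝ) (n : ℕ) (hn : 1 ≤ n) : ‖aa t n‖ ^ 2 = (n : ℝ)⁻¹ := by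
  unfold aa
  rw [Complex.norm_natCast_cpow_of_pos (by omega)]
  have h1 : (-(1 / 2 + I * (t : ℂ))).re = -(1 / 2 : ℝ) := by simp
  have h0 : (0 : ℝ) < n := by exact_mod_cast hn
  rw [h1, ← Real.rpow_natCast, ← Real.rpow_mul h0.le]
  have h2 : (-(1 / 2 : ℝ)) * ((2 : ℕ) : ℝ) = -1 := by norm_num
  rw [h2, Real.rpow_neg_one]

lemma PN_eq (N : ℕ) (t c : ℝ) : PN N (t + c) = ∑ n ∈ Finset.Icc 1 N, aa t n * (n : ℂ) ^ (-(I * (c : ℂ))) := by
  unfold PN zN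
  refine Finset.sum_congr rfl fun n hn => ?_
  rw [Finset.mem_Icc] at hn
  have hn0 : (n : ℂ) ≠ 0 := by exact_mod_cast (by omega : n ≠ 0)
  unfold aa
  rw [← Complex.cpow_add _ _ hn0]
  congr 1
  push_cast
  ring

lemma cont_sum (N : ℕ) (a : ℕ → ℂ) :
    Continuous fun c : ℝ => ‖∑ n ∈ Finset.Icc 1 N, a n * (n : ℂ) ^ (-(I * (c : ℂ)))‖ ^ 2 := by
  refine ((continuous_finsetSum _ fun n hn => ?_).norm).pow 2
  rw [Finset.mem_Icc] at hn
  have hn0 : (n : ℂ) ≠ 0 := by exact_mod_cast (by omega : n ≠ 0)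
  exact continuous_const.mul (Continuous.const_cpow (by fun_prop) (Or.inl hn0))

lemma harm (N : ℕ) : ∑ n ∈ Finset.Icc 1 N, (n : ℝ)⁻¹ ≤ 1 + Real.log N := by
  have h := harmonic_le_one_add_log N
  rw [harmonic_eq_sum_Icc] at h
  push_cast at h
  exact h

end Winuaux

open Winuaux

theorem t_WINU (_ : S_MVS) : S_WINU := by
  obtain ⟨C, hC, hMV⟩ := Pool.Agent.TH928.GS.t_MV
  refine ⟨2 * C, by positivity, fun U t N hU hN hNU => ?_⟩
  have hU2 : (N : ℝ) ≤ U ^ 2 := by nlinarith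
  have h1 := hMV U N (aa t) hU hU2
  have h2 : ∫ c in (0 : ℝ)..U, ‖PN N (t + c)‖ ^ 2 =
      ∫ c in (0 : ℝ)..U, ‖∑ n ∈ Finset.Icc 1 N, aa t n * (n : ℂ) ^ (-(I * (c : ℂ)))‖ ^ 2 :=
    intervalIntegral.integral_congr fun c _ => by simp only [PN_eq]
  have hi : ∀ x y : ℝ, IntervalIntegrable
      (fun c : ℝ => ‖∑ n ∈ Finset.Icc 1 N, aa t n * (n : ℂ) ^ (-(I * (c : ℂ)))‖ ^ 2) volume x y :=
    fun x y => (cont_sum N (aa t)).intervalIntegrable x y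
  have h3 : ∫ c in (0 : ℝ)..U, ‖∑ n ∈ Finset.Icc 1 N, aa t n * (n : ℂ) ^ (-(I * (c : ℂ)))‖ ^ 2 ≤
      ∫ c in (0 : ℝ)..(2 * U), ‖∑ n ∈ Finset.Icc 1 N, aa t n * (n : ℂ) ^ (-(I * (c : ℂ)))‖ ^ 2 := by
    rw [← intervalIntegral.integral_add_adjacent_intervals (hi 0 U) (hi U (2 * U))]
    have h4 : 0 ≤ ∫ c in U..(2 * U), ‖∑ n ∈ Finset.Icc 1 N, aa t n * (n : ℂ) ^ (-(I * (c : ℂ)))‖ ^ 2 :=
      intervalIntegral.integral_nonneg (by linarith) fun c _ => by positivity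
    linarith
  have h5 : ∑ n ∈ Finset.Icc 1 N, (U + n) * ‖aa t n‖ ^ 2 ≤ 2 * U * ∑ n ∈ Finset.Icc 1 N, (n : ℝ)⁻¹ := by
    rw [Finset.mul_sum]
    refine Finset.sum_le_sum fun n hn => ?_
    rw [Finset.mem_Icc] at hn
    rw [norm_aa t n hn.1]
    have h6 : (n : ℝ) ≤ N := by exact_mod_cast hn.2
    exact mul_le_mul_of_nonneg_right (by linarith) (by positivity)
  have h6 := harm N
  have hlog : 0 ≤ Real.log N := Real.log_nonneg (by exact_mod_cast hN)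
  rw [h2]
  refine h3.trans (h1.trans ?_)
  have h7 : 2 * U * ∑ n ∈ Finset.Icc 1 N, (n : ℝ)⁻¹ ≤ 2 * U * (1 + Real.log N) ^ 2 := by
    refine mul_le_mul_of_nonneg_left ?_ (by linarith)
    nlinarith
  calc C * ∑ n ∈ Finset.Icc 1 N, (U + n) * ‖aa t n‖ ^ 2
      ≤ C * (2 * U * (1 + Real.log N) ^ 2) := mul_le_mul_of_nonneg_left (h5.trans h7) hC.le
    _ = 2 * C * U * (1 + Real.log N) ^ 2 := by ring

end Pool.Agent.N879.PU
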