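import Pool.Agent.N879.PU.Stm
import Pool.Agent.TH612.GS.Asm6

set_option autoImplicit false

/-! Project PU: assembly, first part (parameters). -/

namespace Pool.Agent.N879.PU

open Complex Filter Topology MeasureTheory Set
open Pool.Agent.TH612.GS (z zN PN mP SN SP GM zr Sep z_cont PN_cont fz fz_norm fz_cont fz_prod)
open Pool.Agent.N879.PZ (Wb)

noncomputable section

/-- the parameters -/
structure Pu (k : ℕ) (δ C : ℝ) (B M₀ : ℕ) (T H U y : ℝ) (N : ℕ) : Prop where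
  hT : 3 ≤ T
  hL : 1 ≤ Real.log T
  hH1 : 1 ≤ H
  hHT : H ≤ T
  hU1 : 1 ≤ U
  hUT : U ≤ T
  hHU : T ≤ H * U
  hy : y = (H * U / T) ^ δ
  hy216 : 216 ≤ y
  hC : C * Real.log T ^ B ≤ y
  hM : M₀ ≤ N
  hN2 : 2 ≤ N
  hNy : y ^ (6 * k + 48) / 2 ≤ N
  hNlam : (N : ℝ) ≤ H * U / T
  hNU : (N : ℝ) ≤ U ^ (1 / 2 : ℝ)
  hNU1 : (N : ℝ) ≤ U
  hN1 : 2 * (N : ℝ) ^ (4 * k + 2) ≤ U
  hN3 : 2 * (N : ℝ) ^ (3 * k ^ 2) ≤ U
  hN4 : 24 * y * (N : ℝ) ^ (3 * k) ≤ H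
  hN8 : (N : ℝ) ^ (-(1 / 8) : ℝ) ≤ 2 / y ^ 6
  hUy : 48 * (k : ℝ) ^ 2 * y ≤ U ^ (1 / 2 : ℝ)
  e1 : (H * U / T) ^ (-δ) = 1 / y
  e3 : (H * U / T) ^ (3 * δ) = y ^ 3
  hlogN : 1 + Real.log N ≤ 2 * Real.log T

lemma paramsU (k : ℕ) : ∃ δ : ℝ, 0 < δ ∧ ∀ (C : ℝ) (B M₀ : ℕ), ∃ C₀ T₀ : ℝ, ∀ T H U : ℝ, T₀ ≤ T → 0 < H → H ≤ T →
    U ≤ T → T * Real.log T ^ C₀ ≤ H * U → ∃ (y : ℝ) (N : ℕ), Pu k δ C B M₀ T H U y N := by
  set Q : ℕ := 6 * k + 48 with hQ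
  set D : ℝ := (k:ℝ) ^ 2 + k + 1 with hD
  have hk0 : (0:ℝ) ≤ k := Nat.cast_nonneg k
  have hD1 : 1 ≤ D := by rw [hD]; nlinarith [sq_nonneg (k:ℝ)]
  have hQ0 : (0:ℝ) < Q := by rw [hQ]; push_cast; linarith
  have hQ48 : (48:ℝ) ≤ Q := by rw [hQ]; push_cast; linarith
  set δ : ℝ := 1 / (8 * D * Q) with hδ
  have hδ0 : 0 < δ := by positivity
  have hδc : δ * Q = 1 / (8 * D) := by rw [hδ]; field_simp
  have hδs : δ * Q ≤ 1 / 8 := by
    rw [hδc, div_le_div_iff₀ (by positivity) (by norm_num)]; linarith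
  have hδ384 : δ ≤ 1 / 384 := by
    have : δ * 48 ≤ 1 / 8 := (mul_le_mul_of_nonneg_left hQ48 hδ0.le).trans hδs
    linarith
  refine ⟨δ, hδ0, fun C B M₀ => ?_⟩
  -- the exponent
  set C₀ : ℝ := (B + 1) / δ with hC₀
  have hC₀δ : C₀ * δ = B + 1 := by rw [hC₀]; field_simp
  have hB0 : (0:ℝ) ≤ B := Nat.cast_nonneg B
  have hM0 : (0:ℝ) ≤ M₀ := Nat.cast_nonneg M₀
  refine ⟨C₀, max 3 (Real.exp (|C| + 10000 + 2 * M₀ + 48 * k ^ 2)), fun T H U hT hH0 hHT hUT hHU => ?_⟩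
  have hT3 : 3 ≤ T := (le_max_left _ _).trans hT
  have hT0 : 0 < T := by linarith
  have hLL : |C| + 10000 + 2 * M₀ + 48 * k ^ 2 ≤ Real.log T := by
    rw [Real.le_log_iff_exp_le hT0]
    exact (le_max_right _ _).trans hT
  have hCa : C ≤ |C| := le_abs_self C
  have hCb : 0 ≤ |C| := abs_nonneg C
  have hk2 : (0:ℝ) ≤ 48 * k ^ 2 := by positivity
  set L := Real.log T with hLdef
  have hL1 : 1 ≤ L := by linarith
  have hL0 : 0 < L := by linarith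
  set lam : ℝ := H * U / T with hlam
  have hlam1 : L ^ C₀ ≤ lam := by
    rw [hlam, le_div_iff₀ hT0, mul_comm]; exact hHU
  have hLC : 1 ≤ L ^ C₀ := Real.one_le_rpow hL1 (by positivity)
  have hlam2 : 1 ≤ lam := hLC.trans hlam1
  have hlam0 : 0 < lam := by linarith
  have hHU0 : T ≤ H * U := by
    have := hlam2
    rw [hlam, le_div_iff₀ hT0, one_mul] at this
    exact this
  have hU0 : 0 < U := by
    by_contra h
    push Not at h
    have : H * U ≤ 0 := mul_nonpos_of_nonneg_of_nonpos hH0.le h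
    linarith
  have hlamU : lam ≤ U := by
    rw [hlam, div_le_iff₀ hT0, mul_comm]
    gcongr
  have hlamH : lam ≤ H := by
    rw [hlam, div_le_iff₀ hT0]
    gcongr
  set y : ℝ := lam ^ δ with hy
  have hyL : L ^ (B + 1) ≤ y := by
    calc L ^ (B + 1) = L ^ (C₀ * δ) := by
          rw [hC₀δ, ← Real.rpow_natCast]; push_cast; rfl
      _ = (L ^ C₀) ^ δ := Real.rpow_mul hL0.le _ _
      _ ≤ y := Real.rpow_le_rpow (by positivity) hlam1 hδ0.le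
  have hLy : L ≤ y := (le_self_pow₀ hL1 (by omega)).trans hyL
  have hy0 : 0 < y := by linarith
  have hy1 : 1 ≤ y := by linarith
  have ypow : ∀ n : ℕ, y ^ n = lam ^ (δ * n) := by
    intro n
    rw [hy, ← Real.rpow_natCast, ← Real.rpow_mul hlam0.le]
  set N : ℕ := ⌊y ^ Q⌋₊ with hN
  have hyQ : y ≤ y ^ Q := le_self_pow₀ hy1 (by omega)
  have hNle : (N : ℝ) ≤ y ^ Q := Nat.floor_le (by positivity)
  have hNge : y ^ Q - 1 < N := by
    have := Nat.lt_floor_add_one (y ^ Q)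
    linarith
  have hNhalf : y ^ Q / 2 ≤ N := by linarith
  have hN8 : (8:ℝ) ≤ N := by linarith
  have hNpow : ∀ m : ℕ, (m:ℝ) ≤ 4 * D → (N:ℝ) ^ m ≤ lam ^ (1 / 2 : ℝ) := by
    intro m hm
    calc (N:ℝ) ^ m ≤ (y ^ Q) ^ m := by gcongr
      _ = lam ^ (δ * (Q * m : ℕ)) := by rw [← pow_mul, ypow]
      _ ≤ lam ^ (1 / 2 : ℝ) := by
          refine Real.rpow_le_rpow_of_exponent_le hlam2 ?_
          push_cast
          have : δ * (Q * m) = (δ * Q) * m := by ring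
          rw [this, hδc, div_mul_eq_mul_div, div_le_div_iff₀ (by positivity) (by norm_num)]
          linarith
  have hyy : y * y ^ 3 ≤ lam ^ (1 / 2 : ℝ) := by
    have : y * y ^ 3 = y ^ 4 := by ring
    rw [this, ypow]
    refine Real.rpow_le_rpow_of_exponent_le hlam2 ?_
    push_cast; linarith
  have hsq : lam = lam ^ (1 / 2 : ℝ) * lam ^ (1 / 2 : ℝ) := by
    rw [← Real.rpow_add hlam0]; norm_num
  have hlh0 : 0 < lam ^ (1 / 2 : ℝ) := by positivity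
  have hylh : y ≤ lam ^ (1 / 2 : ℝ) := by
    refine le_trans ?_ hyy
    have : 1 ≤ y ^ 3 := one_le_pow₀ hy1
    exact le_mul_of_one_le_right hy0.le this
  have hlh2 : 2 ≤ lam ^ (1 / 2 : ℝ) := by linarith
  have hlhlam : lam ^ (1 / 2 : ℝ) ≤ lam := by
    calc lam ^ (1 / 2 : ℝ) = lam ^ (1 / 2 : ℝ) * 1 := (mul_one _).symm
      _ ≤ lam ^ (1 / 2 : ℝ) * lam ^ (1 / 2 : ℝ) := by gcongr; linarith
      _ = lam := hsq.symm
  have hlhU : lam ^ (1 / 2 : ℝ) ≤ U ^ (1 / 2 : ℝ) := Real.rpow_le_rpow hlam0.le hlamU (by norm_num)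
  have hhalf : 2 * lam ^ (1 / 2 : ℝ) ≤ U := by
    refine le_trans ?_ hlamU
    calc 2 * lam ^ (1 / 2 : ℝ) ≤ lam ^ (1 / 2 : ℝ) * lam ^ (1 / 2 : ℝ) := by gcongr
      _ = lam := hsq.symm
  have hNp1 : (N:ℝ) ≤ lam ^ (1 / 2 : ℝ) := by
    have := hNpow 1 (by push_cast; linarith)
    rwa [pow_one] at this
  refine ⟨y, N, ⟨hT3, hL1, ?_, hHT, ?_, hUT, hHU0, rfl, by linarith, ?_, ?_, ?_, hNhalf, ?_, ?_, ?_, ?_, ?_,
    ?_, ?_, ?_, ?_, ?_, ?_⟩⟩
  · linarith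
  · linarith
  · calc C * L ^ B ≤ L * L ^ B := by gcongr; linarith
      _ = L ^ (B + 1) := by ring
      _ ≤ y := hyL
  · have : (M₀:ℝ) ≤ N := by linarith
    exact_mod_cast this
  · have : (2:ℝ) ≤ N := by linarith
    exact_mod_cast this
  · linarith
  · linarith
  · linarith
  · refine (mul_le_mul_of_nonneg_left (hNpow (4 * k + 2) ?_) (by norm_num)).trans hhalf
    push_cast; rw [hD]; nlinarith
  · refine (mul_le_mul_of_nonneg_left (hNpow (3 * k ^ 2) ?_) (by norm_num)).trans hhalf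
    push_cast; rw [hD]; nlinarith
  · have h3 := hNpow (3 * k) (by push_cast; rw [hD]; nlinarith)
    have h24 : 24 * y ≤ lam ^ (1 / 2 : ℝ) := by
      refine le_trans ?_ hyy
      have : y ≤ y ^ 3 := le_self_pow₀ hy1 (by norm_num)
      calc 24 * y ≤ y * y := mul_le_mul_of_nonneg_right (by linarith) hy0.le
        _ ≤ y * y ^ 3 := mul_le_mul_of_nonneg_left this hy0.le
    calc 24 * y * (N:ℝ) ^ (3 * k) ≤ lam ^ (1 / 2 : ℝ) * lam ^ (1 / 2 : ℝ) := by gcongr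
      _ = lam := hsq.symm
      _ ≤ H := hlamH
  · have e3 : (y ^ Q / 2 : ℝ) ^ (-(1 / 8) : ℝ) ≤ 2 / y ^ 6 := by
      rw [Real.div_rpow (by positivity) (by norm_num), Real.rpow_neg (by positivity),
        Real.rpow_neg (by norm_num)]
      have e4 : y ^ 6 ≤ (y ^ Q : ℝ) ^ (1 / 8 : ℝ) := by
        rw [← Real.rpow_natCast y Q, ← Real.rpow_mul hy0.le, ← Real.rpow_natCast]
        refine Real.rpow_le_rpow_of_exponent_le hy1 ?_
        push_cast; linarith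
      have e5 : (2:ℝ) ^ (1 / 8 : ℝ) ≤ 2 := by
        calc (2:ℝ) ^ (1 / 8 : ℝ) ≤ 2 ^ (1:ℝ) :=
              Real.rpow_le_rpow_of_exponent_le (by norm_num) (by norm_num)
          _ = 2 := Real.rpow_one 2
      rw [div_inv_eq_mul, mul_comm, ← div_eq_mul_inv]
      gcongr
    refine le_trans ?_ e3
    exact Real.rpow_le_rpow_of_nonpos (by positivity) hNhalf (by norm_num)
  · refine le_trans ?_ hlhU
    refine le_trans ?_ hyy
    have h48 : 48 * (k:ℝ) ^ 2 ≤ y := by linarith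
    have : y ≤ y ^ 3 := le_self_pow₀ hy1 (by norm_num)
    calc 48 * (k:ℝ) ^ 2 * y ≤ y * y := mul_le_mul_of_nonneg_right h48 hy0.le
      _ ≤ y * y ^ 3 := mul_le_mul_of_nonneg_left this hy0.le
  · rw [hy, ← hlam, Real.rpow_neg hlam0.le, one_div]
  · rw [← hlam, ypow]; push_cast; ring_nf
  · have hNT : (N:ℝ) ≤ T := by linarith
    have : Real.log N ≤ Real.log T := Real.log_le_log (by linarith) hNT
    linarith

end

end Pool.Agent.N879.PU
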