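import Pool.Agent.N879.PU.Asm2

set_option autoImplicit false

/-! Project PU: assembly, third part. -/

namespace Pool.Agent.N879.PU

open Complex Filter Topology MeasureTheory Set
open Pool.Agent.TH612.GS (z zN PN mP SN SP GM zr Sep z_cont PN_cont fz fz_norm fz_cont fz_prod cheb SN_cont SP_cont
  GM0_cont zr_cont Sep_meas exists_cut)
open Pool.Agent.N879.PZ (Wb)

noncomputable section

variable {k : ℕ}

/-- the replacement, pointwise in the shifts -/
def AG (T H U V : ℝ) (N : ℕ) (γ : Fin k ⊕ Fin k → ℝ) : ℂ :=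
  ∫ t in Gu U V ∩ Icc T (T + H), (∏ i, fs z i (t + γ i) - ∏ i, fs (PN N) i (t + γ i))

/-- the irregular points -/
def JD (T H U V : ℝ) (N : ℕ) (γ : Fin k ⊕ Fin k → ℝ) : ℂ :=
  ∫ t in Icc T (T + H) \ Gu U V, ∏ i, fs (PN N) i (t + γ i)

lemma AG_cont (hIRU : S_IRU) {T H U V W : ℝ} (hH : 0 ≤ H) (hU : 0 < U) (hV : 0 ≤ V) (hW : 0 ≤ W) {N : ℕ}
    (hw : ∀ t : ℝ, ∫ c in (0 : ℝ)..U, ‖PN N (t + c)‖ ^ 2 ≤ U * W) :
    Continuous fun γ : Fin k ⊕ Fin k → ℝ => AG T H U V N γ := by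
  have hm : MeasurableSet (Gu U V ∩ Icc T (T + H)) := (Gu_meas U V).inter measurableSet_Icc
  have c1 := (hIRU (Fin k ⊕ Fin k) T (T + H) U V (Gu U V ∩ Icc T (T + H)) (fun i => fs z i) (by linarith) hU hV hm
    inter_subset_right (fun i => fs_cont z_cont i) (fun i t ht => win_z ht.1 i)).1
  have c2 := (hIRU (Fin k ⊕ Fin k) T (T + H) U W (Gu U V ∩ Icc T (T + H)) (fun i => fs (PN N) i) (by linarith) hU hW
    hm inter_subset_right (fun i => fs_cont (PN_cont N) i) (fun i t _ => by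
      simp only [fs_norm]; exact hw t)).1
  have e : (fun γ : Fin k ⊕ Fin k → ℝ => AG T H U V N γ) = fun γ =>
      (∫ t in Gu U V ∩ Icc T (T + H), ∏ i, fs z i (t + γ i)) -
      ∫ t in Gu U V ∩ Icc T (T + H), ∏ i, fs (PN N) i (t + γ i) := by
    funext γ
    unfold AG
    exact integral_sub (prod_intOn (D := Gu U V ∩ Icc T (T + H)) inter_subset_right z_cont γ)
      (prod_intOn (D := Gu U V ∩ Icc T (T + H)) inter_subset_right (PN_cont N) γ)
  rw [e]
  exact c1.sub c2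

/-- off the exceptional sets -/
lemma off_bad (hD : Pool.Agent.TH612.GS.S_DIAG) (ψ : ℝ → ℝ) {T H U V y : ℝ} {N : ℕ} (hN : 1 ≤ N) (hT : 0 ≤ T)
    (hH : 0 < H) (hy : 0 < y) (hN4 : 24 * y * (N : ℝ) ^ (3 * k) ≤ H) (γ : Fin k ⊕ Fin k → ℝ)
    (g1 : ‖AG T H U V N γ‖ ≤ H / (6 * y)) (g2 : ‖JD T H U V N γ‖ ≤ H / (6 * y))
    (g3 : ‖SN N γ - SP ψ N γ‖ ≤ 1 / (6 * y)) (g4 : ‖SP ψ N γ - GM N γ 0‖ ≤ 1 / (6 * y))
    (g5 : ‖GM N γ 0 - zr γ‖ ≤ 1 / (6 * y)) :
    ‖(∫ t in Gu U V ∩ Icc T (T + H), ∏ i, fs z i (t + γ i)) - H * zr γ‖ ≤ H * (1 / y) := by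
  rw [decomp N γ (H * zr γ)]
  have e1 := int_model hD hN hT hH.le γ
  have e2 : (∫ t in Icc T (T + H), ∏ i, fs (PN N) i (t + γ i)) - H * zr γ =
      ((∫ t in Icc T (T + H), ∏ i, fs (PN N) i (t + γ i)) - H * SN N γ) +
      (H : ℂ) * (SN N γ - SP ψ N γ) + (H : ℂ) * (SP ψ N γ - GM N γ 0) + (H : ℂ) * (GM N γ 0 - zr γ) := by ring
  have hHn : ‖(H : ℂ)‖ = H := by rw [Complex.norm_real, Real.norm_of_nonneg hH.le]
  have e3 : 4 * (N : ℝ) ^ (3 * k) ≤ H / (6 * y) := by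
    rw [le_div_iff₀ (by positivity)]
    linarith
  have m3 : ‖(H : ℂ) * (SN N γ - SP ψ N γ)‖ ≤ H / (6 * y) := by
    rw [norm_mul, hHn]
    calc H * ‖SN N γ - SP ψ N γ‖ ≤ H * (1 / (6 * y)) := by gcongr
      _ = _ := by ring
  have m4 : ‖(H : ℂ) * (SP ψ N γ - GM N γ 0)‖ ≤ H / (6 * y) := by
    rw [norm_mul, hHn]
    calc H * ‖SP ψ N γ - GM N γ 0‖ ≤ H * (1 / (6 * y)) := by gcongr
      _ = _ := by ring
  have m5 : ‖(H : ℂ) * (GM N γ 0 - zr γ)‖ ≤ H / (6 * y) := by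
    rw [norm_mul, hHn]
    calc H * ‖GM N γ 0 - zr γ‖ ≤ H * (1 / (6 * y)) := by gcongr
      _ = _ := by ring
  have tot : ‖(∫ t in Icc T (T + H), ∏ i, fs (PN N) i (t + γ i)) - H * zr γ‖ ≤ 4 * (H / (6 * y)) := by
    rw [e2]
    refine (norm_add_le _ _).trans ((add_le_add ((norm_add_le _ _).trans (add_le_add ((norm_add_le _ _).trans
      (add_le_add (e1.trans e3) m3)) m4)) m5).trans (le_of_eq ?_))
    ring
  refine (norm_add_le _ _).trans ((add_le_add ((norm_sub_le _ _).trans (add_le_add g1 g2)) tot).trans (le_of_eq ?_))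
  field_simp
  ring

theorem t_MAINU2 (hKU : S_KU) (hREG : S_REG) (hWINU : S_WINU) (hTELU : S_TELU) (hIRU : S_IRU)
    (hD : Pool.Agent.TH612.GS.S_DIAG) (hSS : Pool.Agent.TH612.GS.S_SS) (hA4 : Pool.Agent.TH612.GS.S_A4)
    (hZM : Pool.Agent.TH612.GS.S_ZM) (hNS : Pool.Agent.TH612.GS.S_NS) : S_MAINU2 := by
  intro k
  obtain ⟨ψ, hψ⟩ := exists_cut
  obtain ⟨C1, A1, hC1, h1⟩ := hKU
  obtain ⟨C2, A2, hC2, h2⟩ := hREG
  obtain ⟨Cw, hCw, hw⟩ := hWINU
  obtain ⟨C3, hC3, h3⟩ := hSS k ψ hψ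
  obtain ⟨C4, M0, hC4, hM0, h4⟩ := hA4 k ψ hψ
  obtain ⟨C5, T5, B5, hC5, hT5, h5⟩ := hZM k
  obtain ⟨δ, hδ, hpar⟩ := paramsU k
  -- the constants
  set K1 : ℝ := 4 ^ (2 * k) * (2 * C1) with hK1
  set K2 : ℝ := 36 * (C2 * (4 * Cw) ^ k) with hK2
  set Ct : ℝ := K1 + K2 + C2 + 4 * Cw + C3 + C4 + C5 with hCt
  have hK10 : 0 < K1 := by positivity
  have hK20 : 0 < K2 := by positivity
  set Bt : ℕ := A1 + A2 + 2 * k + B5 + 2 with hBt
  obtain ⟨C₀, T₀, hT₀⟩ := hpar Ct Bt (M0 + ⌈T5⌉₊)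
  refine ⟨δ, C₀, T₀, hδ, fun T H U hT hH0 hHT hUT hHU => ?_⟩
  obtain ⟨y, N, P⟩ := hT₀ T H U hT hH0 hHT hUT hHU
  have hL := P.hL
  have hT3 := P.hT
  have hTp : 0 < T := by linarith
  have hy216 := P.hy216
  have hy0 : 0 < y := by linarith
  have hy1 : 1 ≤ y := by linarith
  have hU1 := P.hU1
  have hU0 : 0 < U := by linarith
  have hH1 := P.hH1
  have hN2 := P.hN2
  have hN1 : 1 ≤ N := by omega
  have hN0 : (0:ℝ) < N := by exact_mod_cast (by omega : 0 < N)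
  have hN1r : (1:ℝ) ≤ N := by exact_mod_cast hN1
  set L := Real.log T with hLdef
  have hL0 : 0 < L := by linarith
  have cst : ∀ (c : ℝ) (b : ℕ), 0 ≤ c → c ≤ Ct → b ≤ Bt → c * L ^ b ≤ y := by
    intro c b hc0 hc hb
    refine le_trans ?_ P.hC
    have : L ^ b ≤ L ^ Bt := pow_le_pow_right₀ hL hb
    gcongr
  have c1 : K1 * L ^ A1 ≤ y := cst K1 _ hK10.le (by rw [hCt]; linarith) (by omega)
  have c2 : K2 * L ^ (A2 + 2 * k) ≤ y := cst K2 _ hK20.le (by rw [hCt]; linarith) (by omega)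
  have c2' : C2 * L ^ A2 ≤ y := cst C2 _ hC2.le (by rw [hCt]; linarith) (by omega)
  have cw : 4 * Cw * L ^ 2 ≤ y := cst (4 * Cw) _ (by positivity) (by rw [hCt]; linarith) (by omega)
  have c3 : C3 ≤ y := by simpa using cst C3 0 hC3.le (by rw [hCt]; linarith) (by omega)
  have c4 : C4 ≤ y := by simpa using cst C4 0 hC4.le (by rw [hCt]; linarith) (by omega)
  have c5 : C5 * L ^ B5 ≤ y := cst C5 _ hC5.le (by rw [hCt]; linarith) (by omega)
  have hMN : M0 ≤ N := by have := P.hM; omega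
  have hT5U : T5 ≤ U := by
    have a1 : T5 ≤ ⌈T5⌉₊ := Nat.le_ceil _
    have a2 : ((⌈T5⌉₊ : ℕ) : ℝ) ≤ N := by
      have := P.hM
      exact_mod_cast (by omega : ⌈T5⌉₊ ≤ N)
    linarith [P.hNU1]
  rw [P.e1, P.e3]
  set V : ℝ := y ^ 3 with hV
  have hV0 : 0 < V := by positivity
  have hyV : y ≤ V := le_self_pow₀ hy1 (by norm_num)
  obtain ⟨r1, r2⟩ := h2 T H U V hT3 hH1 hHT hU1 hUT P.hHU hV0
  -- windows of the model
  set W2 : ℝ := 4 * Cw * L ^ 2 with hW2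
  have hW20 : 0 ≤ W2 := by positivity
  have hlogN0 : 0 ≤ Real.log N := Real.log_nonneg hN1r
  have hwin : ∀ t : ℝ, ∫ c in (0 : ℝ)..U, ‖PN N (t + c)‖ ^ 2 ≤ U * W2 := by
    intro t
    refine (hw U t N hU1 hN1 P.hNU1).trans ?_
    have e : (1 + Real.log N) ^ 2 ≤ (2 * L) ^ 2 := pow_le_pow_left₀ (by linarith) P.hlogN 2
    calc Cw * U * (1 + Real.log N) ^ 2 ≤ Cw * U * (2 * L) ^ 2 := by gcongr
      _ = U * W2 := by rw [hW2]; ring
  have hwinV : ∀ t : ℝ, ∫ c in (0 : ℝ)..U, ‖PN N (t + c)‖ ^ 2 ≤ U * V := fun t =>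
    (hwin t).trans (by gcongr; exact cw.trans hyV)
  have hyn : ∀ n : ℕ, 1 ≤ n → 216 ≤ y ^ n := fun n hn => hy216.trans (le_self_pow₀ hy1 (by omega))
  have hU2k : 0 < U ^ (2 * k) := by positivity
  set b : ℝ := U ^ (2 * k) / (6 * y) with hb
  have hb0 : 0 < b := by positivity
  have hNy := P.hNy
  have hNinv : 1 / (N:ℝ) ≤ 2 / y ^ (6 * k + 48) := by
    rw [div_le_div_iff₀ hN0 (by positivity)]
    linarith
  have hD2 : 0 < H / (6 * y) := by positivity
  -- the replacement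
  have u1 : mP (Fin k ⊕ Fin k) U {γ | H / (6 * y) < ‖AG T H U V N γ‖} ≤ ENNReal.ofReal b := by
    rcases Nat.eq_zero_or_pos k with hk | hk
    · subst hk
      have h0 : ∀ γ : Fin 0 ⊕ Fin 0 → ℝ, AG T H U V N γ = 0 := by
        intro γ
        unfold AG
        simp
      have hemp : {γ : Fin 0 ⊕ Fin 0 → ℝ | H / (6 * y) < ‖AG T H U V N γ‖} = ∅ := by
        ext γ
        simp only [mem_ofPred_eq, mem_empty_iff_false, iff_false, not_lt, h0, norm_zero]
        exact hD2.le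
      rw [hemp, measure_empty]
      exact zero_le
    · have htel := hTELU (Fin k ⊕ Fin k) T (T + H) U (C1 * L ^ A1 * (H * U / N + T)) (U * V) (Gu U V)
        (fun i => fs z i) (fun i => fs (PN N) i) (by linarith) hU0 (by positivity) (by positivity) (Gu_meas U V)
        (fun i => fs_cont z_cont i) (fun i => fs_cont (PN_cont N) i)
        (fun i F hF => ker_fs i (fun F hF => h1 T H U N F hT3 hH1 hHT hU1 hUT hN1 (P.hNU1.trans hUT) hF) F hF)
        (fun i t ht _ => win_z ht i) (fun i t _ _ => by simp only [fs_norm]; exact hwinV t)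
      rw [card_ii] at htel
      have hcont := AG_cont (k := k) hIRU (T := T) (H := H) (V := V) hH0.le hU0 hV0.le hW20 hwin
      refine (cheb (hcont.norm.aemeasurable) hD2 htel).trans (ENNReal.ofReal_le_ofReal ?_)
      have hT' : T ≤ H * U / N := by
        rw [le_div_iff₀ hN0]
        have := P.hNlam
        rw [le_div_iff₀ hTp] at this
        linarith
      obtain ⟨m, hm⟩ : ∃ m, 2 * k = m + 1 := ⟨2 * k - 1, by omega⟩
      have e1 : 2 * k - 1 = m := by omega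
      have e2 : 6 * k = 3 * m + 3 := by omega
      rw [e1]
      have e3 : T + H - T = H := by ring
      rw [e3]
      calc 4 ^ (2 * k) * (C1 * L ^ A1 * (H * U / N + T)) * (U * V) ^ m * H / (H / (6 * y)) ^ 2
          ≤ 4 ^ (2 * k) * (C1 * L ^ A1 * (H * U / N + H * U / N)) * (U * V) ^ m * H / (H / (6 * y)) ^ 2 := by
            gcongr
        _ = (K1 * L ^ A1) * U ^ (2 * k) * (1 / N) * (y ^ (3 * m)) * (36 * y ^ 2) := by
            rw [hK1, mul_pow, hV, ← pow_mul, hm, pow_succ U m]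
            field_simp
            ring
        _ ≤ y * U ^ (2 * k) * (2 / y ^ (6 * k + 48)) * (y ^ (3 * m)) * (36 * y ^ 2) := by gcongr
        _ = U ^ (2 * k) / (6 * y) * (432 / y ^ 47) := by
            rw [e2]
            have e4 : y ^ (3 * m + 3 + 48) = y ^ (3 * m) * y ^ 51 := by rw [← pow_add]
            rw [e4]
            field_simp
            ring
        _ ≤ U ^ (2 * k) / (6 * y) * 1 := by
            gcongr
            rw [div_le_one (by positivity)]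
            have a1 := hyn 46 (by norm_num)
            calc (432:ℝ) ≤ 216 * y := by linarith
              _ ≤ y ^ 46 * y := by gcongr
              _ = y ^ 47 := by ring
        _ = b := by rw [mul_one]
  -- the irregular points
  have hDm : MeasurableSet (Icc T (T + H) \ Gu U V) := measurableSet_Icc.diff (Gu_meas U V)
  have u2 : mP (Fin k ⊕ Fin k) U {γ | H / (6 * y) < ‖JD T H U V N γ‖} ≤ ENNReal.ofReal b := by
    obtain ⟨j1, j2⟩ := hIRU (Fin k ⊕ Fin k) T (T + H) U W2 (Icc T (T + H) \ Gu U V) (fun i => fs (PN N) i)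
      (by linarith) hU0 hW20 hDm sdiff_subset (fun i => fs_cont (PN_cont N) i)
      (fun i t _ => by simp only [fs_norm]; exact hwin t)
    rw [card_ii] at j2
    refine (markov (j1.norm.aemeasurable) hD2 j2).trans (ENNReal.ofReal_le_ofReal ?_)
    have hvol : (volume (Icc T (T + H) \ Gu U V)).toReal ≤ C2 * H * L ^ A2 / V :=
      ENNReal.toReal_le_of_le_ofReal (by positivity) r1
    have hsq : (U * √W2) ^ (2 * k) = U ^ (2 * k) * ((4 * Cw) ^ k * L ^ (2 * k)) := by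
      rw [mul_pow, pow_mul (√W2), Real.sq_sqrt hW20, hW2, mul_pow, ← pow_mul]
    rw [hsq]
    calc (volume (Icc T (T + H) \ Gu U V)).toReal * (U ^ (2 * k) * ((4 * Cw) ^ k * L ^ (2 * k))) / (H / (6 * y))
        ≤ (C2 * H * L ^ A2 / V) * (U ^ (2 * k) * ((4 * Cw) ^ k * L ^ (2 * k))) / (H / (6 * y)) := by gcongr
      _ = (K2 * L ^ (A2 + 2 * k)) * U ^ (2 * k) / (6 * y ^ 2) := by
          rw [hK2, hV, pow_add]
          field_simp
          ring
      _ ≤ y * U ^ (2 * k) / (6 * y ^ 2) := by gcongr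
      _ = b := by rw [hb]; field_simp
  -- the model
  have hN8 := P.hN8
  have u3 : mP (Fin k ⊕ Fin k) U {γ | 1 / (6 * y) < ‖SN N γ - SP ψ N γ‖} ≤ ENNReal.ofReal b := by
    refine (cheb (((SN_cont N).sub (SP_cont ψ N)).norm.aemeasurable) (by positivity)
      (h3 U N P.hN2 P.hN1)).trans (ENNReal.ofReal_le_ofReal ?_)
    calc C3 * U ^ (2 * k) * (N:ℝ) ^ (-(1 / 8) : ℝ) / (1 / (6 * y)) ^ 2
        ≤ y * U ^ (2 * k) * (2 / y ^ 6) / (1 / (6 * y)) ^ 2 := by gcongr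
      _ = U ^ (2 * k) / (6 * y) * (432 / y ^ 2) := by field_simp; ring
      _ ≤ U ^ (2 * k) / (6 * y) * 1 := by
          gcongr
          rw [div_le_one (by positivity)]
          nlinarith
      _ = b := by rw [mul_one]
  have u4 : mP (Fin k ⊕ Fin k) U {γ | 1 / (6 * y) < ‖SP ψ N γ - GM N γ 0‖} ≤ ENNReal.ofReal b := by
    refine (cheb (((SP_cont ψ N).sub (GM0_cont N)).norm.aemeasurable) (by positivity)
      (h4 U N hMN (by linarith) P.hN3)).trans (ENNReal.ofReal_le_ofReal ?_)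
    calc C4 * U ^ (2 * k) * (N:ℝ) ^ (-(1 / 8) : ℝ) / (1 / (6 * y)) ^ 2
        ≤ y * U ^ (2 * k) * (2 / y ^ 6) / (1 / (6 * y)) ^ 2 := by gcongr
      _ = U ^ (2 * k) / (6 * y) * (432 / y ^ 2) := by field_simp; ring
      _ ≤ U ^ (2 * k) / (6 * y) * 1 := by
          gcongr
          rw [div_le_one (by positivity)]
          nlinarith
      _ = b := by rw [mul_one]
  have u5 : mP (Fin k ⊕ Fin k) U (Sep k U ∩ {γ | 1 / (6 * y) < ‖GM N γ 0 - zr γ‖}) ≤ ENNReal.ofReal b := by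
    have hm : AEMeasurable (fun γ : Fin k ⊕ Fin k → ℝ => ‖GM N γ 0 - zr γ‖)
        ((mP (Fin k ⊕ Fin k) U).restrict (Sep k U)) :=
      (((GM0_cont N).continuousOn.sub (zr_cont (by linarith))).norm).aemeasurable (Sep_meas k U)
    have hcb := cheb hm (lam := 1 / (6 * y)) (by positivity) (h5 U N hT5U hN1 P.hNU)
    have e0 : mP (Fin k ⊕ Fin k) U (Sep k U ∩ {γ | 1 / (6 * y) < ‖GM N γ 0 - zr γ‖}) ≤
        ((mP (Fin k ⊕ Fin k) U).restrict (Sep k U)) {γ | 1 / (6 * y) < ‖GM N γ 0 - zr γ‖} := by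
      rw [inter_comm]
      exact Measure.le_restrict_apply _ _
    refine e0.trans (hcb.trans (ENNReal.ofReal_le_ofReal ?_))
    have hlU : Real.log U ≤ L := Real.log_le_log hU0 hUT
    have hlU0 : 0 ≤ Real.log U := Real.log_nonneg hU1
    calc C5 * Real.log U ^ B5 * U ^ (2 * k) / N / (1 / (6 * y)) ^ 2
        = (C5 * Real.log U ^ B5) * U ^ (2 * k) * (1 / N) * (36 * y ^ 2) := by field_simp; ring
      _ ≤ (C5 * L ^ B5) * U ^ (2 * k) * (1 / N) * (36 * y ^ 2) := by gcongr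
      _ ≤ y * U ^ (2 * k) * (2 / y ^ (6 * k + 48)) * (36 * y ^ 2) := by gcongr
      _ ≤ y * U ^ (2 * k) * (2 / y ^ 48) * (36 * y ^ 2) := by
          have : y ^ 48 ≤ y ^ (6 * k + 48) := pow_le_pow_right₀ hy1 (by omega)
          gcongr
      _ = U ^ (2 * k) / (6 * y) * (432 / y ^ 44) := by field_simp; ring
      _ ≤ U ^ (2 * k) / (6 * y) * 1 := by
          gcongr
          rw [div_le_one (by positivity)]
          have a1 := hyn 43 (by norm_num)
          calc (432:ℝ) ≤ 216 * y := by linarith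
            _ ≤ y ^ 43 * y := by gcongr
            _ = y ^ 44 := by ring
      _ = b := by rw [mul_one]
  have u8 : mP (Fin k ⊕ Fin k) U (Sep k U)ᶜ ≤ ENNReal.ofReal b := by
    refine (hNS k U (by linarith)).trans (ENNReal.ofReal_le_ofReal ?_)
    have e : U ^ (2 * k - 1 / 2 : ℝ) = U ^ (2 * k) / U ^ (1 / 2 : ℝ) := by
      rw [Real.rpow_sub hU0]
      congr 1
      rw [← Real.rpow_natCast]; push_cast; rfl
    have hUh : 0 < U ^ (1 / 2 : ℝ) := by positivity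
    rw [e, hb, ← mul_div_assoc, div_le_div_iff₀ hUh (by positivity)]
    calc 8 * (k:ℝ) ^ 2 * U ^ (2 * k) * (6 * y) = (48 * (k:ℝ) ^ 2 * y) * U ^ (2 * k) := by ring
      _ ≤ U ^ (1 / 2 : ℝ) * U ^ (2 * k) := by
          have := P.hUy
          gcongr
      _ = _ := by ring
  refine ⟨r1.trans (ENNReal.ofReal_le_ofReal ?_), ?_, ?_⟩
  · calc C2 * H * L ^ A2 / V = (C2 * L ^ A2) * H / y ^ 3 := by rw [hV]; ring
      _ ≤ y * H / y ^ 3 := by gcongr
      _ = H * (1 / y) * (1 / y) := by field_simp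
      _ ≤ H * (1 / y) * 1 := by
          gcongr
          rw [div_le_one hy0]; exact hy1
      _ = H * (1 / y) := mul_one _
  · intro hUh t ht
    have := r2 hUh t ht
    refine this.trans ?_
    calc C2 * U * L ^ A2 = U * (C2 * L ^ A2) := by ring
      _ ≤ U * V := by gcongr; exact c2'.trans hyV
  · have hsub : {γ : Fin k ⊕ Fin k → ℝ | H * (1 / y) <
        ‖(∫ t in Gu U V ∩ Icc T (T + H), ∏ i, fs z i (t + γ i)) - H * zr γ‖} ⊆
        (((((Sep k U)ᶜ ∪ {γ | 1 / (6 * y) < ‖SN N γ - SP ψ N γ‖}) ∪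
        {γ | 1 / (6 * y) < ‖SP ψ N γ - GM N γ 0‖}) ∪ (Sep k U ∩ {γ | 1 / (6 * y) < ‖GM N γ 0 - zr γ‖})) ∪
        {γ | H / (6 * y) < ‖AG T H U V N γ‖}) ∪ {γ | H / (6 * y) < ‖JD T H U V N γ‖} := by
      intro γ hγ
      by_contra hcon
      simp only [mem_union, not_or, mem_ofPred_eq, not_lt, mem_compl_iff, not_not, mem_inter_iff, not_and] at hcon
      obtain ⟨⟨⟨⟨⟨g1, g2⟩, g3⟩, g4⟩, g5⟩, g6⟩ := hcon
      have := off_bad hD ψ hN1 hTp.le hH0 hy0 P.hN4 γ g5 g6 g2 g3 (g4 g1)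
      exact absurd hγ (not_lt.mpr this)
    have step : ∀ {A B : Set (Fin k ⊕ Fin k → ℝ)} {x z : ℝ}, 0 ≤ x → 0 ≤ z →
        mP (Fin k ⊕ Fin k) U A ≤ ENNReal.ofReal x → mP (Fin k ⊕ Fin k) U B ≤ ENNReal.ofReal z →
        mP (Fin k ⊕ Fin k) U (A ∪ B) ≤ ENNReal.ofReal (x + z) := by
      intro A B x z hx hz hA hB
      rw [ENNReal.ofReal_add hx hz]
      exact (measure_union_le _ _).trans (add_le_add hA hB)
    have tot := step (by positivity) (by positivity) (step (by positivity) (by positivity)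
      (step (by positivity) (by positivity) (step (by positivity) (by positivity)
      (step (by positivity) (by positivity) u8 u3) u4) u5) u1) u2
    refine ((measure_mono hsub).trans tot).trans (ENNReal.ofReal_le_ofReal (le_of_eq ?_))
    rw [hb]
    field_simp
    ring

end

end Pool.Agent.N879.PU
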